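import Pool.Agent.Helper17.ZTH.Trap

/-!
# The automaton
-/

set_option autoImplicit false

open Finset

namespace Pool.Agent.Helper17.ZTH

/-- Configurations. -/
abbrev Conf := ℤ → Fin 6

/-- The local rule of `F_{×3}`. -/
def f (s t : Fin 6) : Fin 6 := ⟨(3 * (s : ℕ)) % 6 + (3 * (t : ℕ)) / 6, by omega⟩

/-- `F_{×3}`. -/
def F3 (x : Conf) : Conf := fun i => f (x i) (x (i + 1))

/-- `F = F_{×3} ∘ F_{×3} ∘ σ⁻¹`. -/
def F (x : Conf) : Conf := F3 (F3 fun i => x (i - 1))

/-- Finite configurations. -/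
def IsFin (x : Conf) : Prop := {i | x i ≠ 0}.Finite

/-- the value -/
noncomputable def alpha (x : Conf) : ℝ := ∑ᶠ i : ℤ, ((x i : ℕ) : ℝ) * (6 : ℝ) ^ (-i)

theorem isFin_shift {x : Conf} (h : IsFin x) (c : ℤ) : IsFin fun i => x (i + c) := by
  have : {i | x (i + c) ≠ 0} = (fun i => i + c) ⁻¹' {i | x i ≠ 0} := rfl
  unfold IsFin
  rw [this]
  exact h.preimage (add_left_injective c).injOn

theorem f_zero : f 0 0 = 0 := by decide

theorem isFin_F3 {x : Conf} (h : IsFin x) : IsFin (F3 x) := by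
  refine (h.union (isFin_shift h 1)).subset ?_
  intro i hi
  by_contra hcon
  apply hi
  simp only [Set.mem_union, Set.mem_ofPred_eq, not_or, not_not] at hcon
  rw [F3, hcon.1, hcon.2]
  exact f_zero

theorem supp_fin {x : Conf} (h : IsFin x) (g : Fin 6 → ℝ) (hg : g 0 = 0) (u : ℤ → ℝ) :
    (Function.support fun i => g (x i) * u i).Finite := by
  refine h.subset fun i hi => ?_
  intro h0
  apply hi
  dsimp only
  rw [h0, hg, zero_mul]

theorem alpha_F3 {x : Conf} (h : IsFin x) : alpha (F3 x) = 3 * alpha x := by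
  have e1 : alpha (F3 x) = ∑ᶠ i : ℤ, ((((3 * (x i : ℕ)) % 6 : ℕ) : ℝ) * (6 : ℝ) ^ (-i) +
      (((3 * (x (i + 1) : ℕ)) / 6 : ℕ) : ℝ) * (6 : ℝ) ^ (-i)) := by
    unfold alpha
    refine finsum_congr fun i => ?_
    rw [F3, f]
    push_cast
    ring
  have s1 : (Function.support fun i : ℤ => (((3 * (x i : ℕ)) % 6 : ℕ) : ℝ) * (6 : ℝ) ^ (-i)).Finite :=
    supp_fin h (fun a => (((3 * (a : ℕ)) % 6 : ℕ) : ℝ)) (by norm_num) _
  have s2 : (Function.support fun i : ℤ => (((3 * (x (i + 1) : ℕ)) / 6 : ℕ) : ℝ) *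
      (6 : ℝ) ^ (-i)).Finite :=
    supp_fin (isFin_shift h 1) (fun a => (((3 * (a : ℕ)) / 6 : ℕ) : ℝ)) (by norm_num) _
  rw [finsum_add_distrib s1 s2] at e1
  have e2 : ∑ᶠ i : ℤ, (((3 * (x (i + 1) : ℕ)) / 6 : ℕ) : ℝ) * (6 : ℝ) ^ (-i) =
      ∑ᶠ i : ℤ, 6 * (((3 * (x i : ℕ)) / 6 : ℕ) : ℝ) * (6 : ℝ) ^ (-i) := by
    have e0 := finsum_comp_equiv (Equiv.addRight (1 : ℤ))
      (f := fun i : ℤ => 6 * (((3 * (x i : ℕ)) / 6 : ℕ) : ℝ) * (6 : ℝ) ^ (-i))
    rw [← e0]
    refine finsum_congr fun i => ?_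
    rw [Equiv.coe_addRight, neg_add, zpow_add₀ (by norm_num)]
    norm_num
    ring
  have s3 : (Function.support fun i : ℤ => 6 * (((3 * (x i : ℕ)) / 6 : ℕ) : ℝ) *
      (6 : ℝ) ^ (-i)).Finite :=
    supp_fin h (fun a => 6 * (((3 * (a : ℕ)) / 6 : ℕ) : ℝ)) (by norm_num) _
  rw [e2, ← finsum_add_distrib s1 s3] at e1
  rw [e1]
  unfold alpha
  rw [← smul_eq_mul, smul_finsum' 3 (supp_fin h (fun a => ((a : ℕ) : ℝ)) (by norm_num) _)]
  refine finsum_congr fun i => ?_
  have e3 : (3 * (x i : ℕ)) % 6 + 6 * ((3 * (x i : ℕ)) / 6) = 3 * (x i : ℕ) := Nat.mod_add_div _ _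
  have e4 : (((3 * (x i : ℕ)) % 6 : ℕ) : ℝ) + 6 * (((3 * (x i : ℕ)) / 6 : ℕ) : ℝ) =
      3 * ((x i : ℕ) : ℝ) := by exact_mod_cast e3
  rw [smul_eq_mul, ← mul_assoc, ← e4]
  ring

theorem alpha_shift (x : Conf) : alpha (fun i => x (i - 1)) = alpha x / 6 := by
  unfold alpha
  have e0 := finsum_comp_equiv (Equiv.addRight (1 : ℤ))
      (f := fun i : ℤ => ((x (i - 1) : ℕ) : ℝ) * (6 : ℝ) ^ (-i))
  rw [← e0, div_eq_mul_inv, mul_comm, mul_finsum]
  refine finsum_congr fun i => ?_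
  rw [Equiv.coe_addRight, neg_add, zpow_add₀ (by norm_num), add_sub_cancel_right]
  norm_num
  ring

theorem isFin_F {x : Conf} (h : IsFin x) : IsFin (F x) := by
  have h1 : IsFin fun i => x (i - 1) := isFin_shift h (-1)
  exact isFin_F3 (isFin_F3 h1)

theorem alpha_F {x : Conf} (h : IsFin x) : alpha (F x) = 3 / 2 * alpha x := by
  have h1 : IsFin fun i => x (i - 1) := isFin_shift h (-1)
  rw [F, alpha_F3 (isFin_F3 h1), alpha_F3 h1, alpha_shift]
  ring

theorem iter_F {x : Conf} (h : IsFin x) (t : ℕ) :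
    IsFin (F^[t] x) ∧ alpha (F^[t] x) = alpha x * (3 / 2) ^ t := by
  induction t with
  | zero => exact ⟨h, by simp⟩
  | succ t ih =>
    rw [Function.iterate_succ_apply']
    refine ⟨isFin_F ih.1, ?_⟩
    rw [alpha_F ih.1, ih.2, pow_succ]
    ring

theorem alpha_ne {x : Conf} (h : IsFin x) (h0 : x ≠ 0) : alpha x ≠ 0 := by
  obtain ⟨i, hi⟩ := Function.ne_iff.1 h0
  have s : (Function.support fun i : ℤ => ((x i : ℕ) : ℝ) * (6 : ℝ) ^ (-i)).Finite :=
    supp_fin h (fun a => ((a : ℕ) : ℝ)) (by norm_num) _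
  have h1 : ((x i : ℕ) : ℝ) * (6 : ℝ) ^ (-i) ≤ alpha x := by
    unfold alpha
    exact single_le_finsum i s fun j => by positivity
  have h2 : 0 < (x i : ℕ) := by
    refine Nat.pos_of_ne_zero fun h3 => hi ?_
    exact Fin.ext h3
  have h3 : 0 < ((x i : ℕ) : ℝ) * (6 : ℝ) ^ (-i) := by positivity
  exact (h3.trans_le h1).ne'

/-- the tail -/
noncomputable def T (y : Conf) (j : ℤ) : ℝ :=
  ∑ᶠ i : ℤ, if j ≤ i then ((y i : ℕ) : ℝ) * (6 : ℝ) ^ (j - 1 - i) else 0

theorem supp_T {y : Conf} (h : IsFin y) (j : ℤ) (u : ℤ → ℝ) :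
    (Function.support fun i : ℤ => if j ≤ i then ((y i : ℕ) : ℝ) * u i else 0).Finite := by
  refine h.subset fun i hi => ?_
  intro h0
  apply hi
  dsimp only
  rw [h0]
  simp

theorem T_step {y : Conf} (h : IsFin y) (j : ℤ) : 6 * T y j = ((y j : ℕ) : ℝ) + T y (j + 1) := by
  have e1 : 6 * T y j = ∑ᶠ i : ℤ, ((if i = j then ((y j : ℕ) : ℝ) else 0) +
      (if j + 1 ≤ i then ((y i : ℕ) : ℝ) * (6 : ℝ) ^ (j + 1 - 1 - i) else 0)) := by
    unfold T
    rw [mul_finsum]
    refine finsum_congr fun i => ?_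
    rcases lt_trichotomy i j with hij | hij | hij
    · rw [if_neg (by omega), if_neg (by omega), if_neg (by omega)]
      simp
    · subst hij
      rw [if_pos le_rfl, if_pos rfl, if_neg (by omega), add_zero]
      rw [show i - 1 - i = -1 by ring]
      norm_num
      ring
    · rw [if_pos (by omega), if_neg (by omega), if_pos (by omega), zero_add]
      rw [show j + 1 - 1 - i = (j - 1 - i) + 1 by ring, zpow_add_one₀ (by norm_num)]
      ring
  rw [e1, finsum_add_distrib]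
  · congr 1
    rw [finsum_eq_single _ j]
    · simp
    · intro i hi
      rw [if_neg hi]
  · refine (Set.finite_singleton j).subset fun i hi => ?_
    by_contra hcon
    apply hi
    dsimp only
    rw [if_neg (by simpa using hcon)]
  · exact supp_T h (j + 1) fun i => (6 : ℝ) ^ (j + 1 - 1 - i)

theorem T_nonneg (y : Conf) (j : ℤ) : 0 ≤ T y j := by
  refine finsum_nonneg fun i => ?_
  split_ifs
  · positivity
  · exact le_rfl

theorem T_lt_one {y : Conf} (h : IsFin y) (j : ℤ) : T y j < 1 := by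
  obtain ⟨N, hN⟩ := h.bddAbove
  have h0 : ∀ j, N < j → T y j = 0 := by
    intro j hj
    refine finsum_eq_zero_of_forall_eq_zero fun i => ?_
    split_ifs with hi
    · have : y i = 0 := by
        by_contra hcon
        have := hN hcon
        omega
      rw [this]
      simp
    · rfl
  have key : ∀ d : ℕ, T y (N + 1 - d) < 1 := by
    intro d
    induction d with
    | zero =>
      rw [h0 _ (by simp)]
      norm_num
    | succ d ih =>
      have e1 := T_step h (N + 1 - (d + 1 : ℕ))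
      rw [show N + 1 - ((d + 1 : ℕ) : ℤ) + 1 = N + 1 - d by push_cast; ring] at e1
      have e2 : ((y (N + 1 - (d + 1 : ℕ)) : ℕ) : ℝ) ≤ 5 := by
        have := (y (N + 1 - (d + 1 : ℕ))).2
        exact_mod_cast Nat.lt_succ_iff.1 this
      linarith
  rcases le_or_gt j (N + 1) with hj | hj
  · have := key (N + 1 - j).toNat
    rwa [Int.toNat_of_nonneg (by omega), sub_sub_cancel] at this
  · rw [h0 j (by omega)]
    norm_num

theorem int_part {y : Conf} (h : IsFin y) (j : ℤ) :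
    ∃ z : ℤ, (6 : ℝ) ^ (j - 1) * alpha y = z + T y j := by
  obtain ⟨N, hN⟩ := h.bddBelow
  have base : ∀ j, j ≤ N → (6 : ℝ) ^ (j - 1) * alpha y = T y j := by
    intro j hj
    unfold alpha T
    rw [mul_finsum]
    refine finsum_congr fun i => ?_
    split_ifs with hi
    · rw [show j - 1 - i = (j - 1) + -i by ring, zpow_add₀ (by norm_num)]
      ring
    · have : y i = 0 := by
        by_contra hcon
        have := hN hcon
        omega
      rw [this]
      simp
  have key : ∀ d : ℕ, ∃ z : ℤ, (6 : ℝ) ^ (N + d - 1) * alpha y = z + T y (N + d) := by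
    intro d
    induction d with
    | zero => exact ⟨0, by simpa using base N le_rfl⟩
    | succ d ih =>
      obtain ⟨z, hz⟩ := ih
      refine ⟨6 * z + ((y (N + d) : ℕ) : ℤ), ?_⟩
      have e1 := T_step h (N + d)
      rw [show N + ((d + 1 : ℕ) : ℤ) - 1 = (N + d - 1) + 1 by push_cast; ring,
        zpow_add_one₀ (by norm_num), show N + ((d + 1 : ℕ) : ℤ) = N + d + 1 by push_cast; ring]
      push_cast
      linear_combination 6 * hz + e1
  rcases le_or_gt N j with hj | hj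
  · have := key (j - N).toNat
    rwa [Int.toNat_of_nonneg (by omega), add_sub_cancel] at this
  · exact ⟨0, by rw [base j hj.le]; simp⟩

theorem fract_alpha {y : Conf} (h : IsFin y) (j : ℤ) :
    Int.fract ((6 : ℝ) ^ (j - 1) * alpha y) = T y j := by
  obtain ⟨z, hz⟩ := int_part h j
  rw [hz, Int.fract_intCast_add, Int.fract_eq_self]
  exact ⟨T_nonneg y j, T_lt_one h j⟩

theorem pow_T {y : Conf} (h : IsFin y) (j : ℤ) (n : ℕ) :
    (6 : ℝ) ^ n * T y j = ((∑ i ∈ range n, (y (j + i) : ℕ) * 6 ^ (n - 1 - i) : ℕ) : ℝ) +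
      T y (j + n) := by
  induction n with
  | zero => simp
  | succ n ih =>
    have e1 := T_step h (j + n)
    have e2 : ∑ i ∈ range n, (y (j + i) : ℕ) * 6 ^ (n - i) =
        6 * ∑ i ∈ range n, (y (j + i) : ℕ) * 6 ^ (n - 1 - i) := by
      rw [Finset.mul_sum]
      refine Finset.sum_congr rfl fun i hi => ?_
      have := Finset.mem_range.1 hi
      rw [show n - i = (n - 1 - i) + 1 by omega, pow_succ]
      ring
    rw [Finset.sum_range_succ, Nat.add_sub_cancel, e2, Nat.sub_self, pow_zero, mul_one]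
    push_cast at ih ⊢
    rw [pow_succ, show j + ((n : ℤ) + 1) = j + n + 1 by ring]
    linear_combination 6 * ih + e1

/-- **the code of a word of cells** -/
theorem code_alpha {y : Conf} (h : IsFin y) (j : ℤ) (n : ℕ) :
    code 3 2 n ((6 : ℝ) ^ (j - 1) * alpha y) = ∑ i ∈ range n, (y (j + i) : ℕ) * 6 ^ (n - 1 - i) := by
  unfold code
  rw [fract_alpha h, show (((3 * 2 : ℕ)) : ℝ) = 6 by norm_num, pow_T h]
  have h0 := T_nonneg y (j + n)
  have h1 := T_lt_one h (j + n)
  rw [Nat.floor_eq_iff (by positivity)]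
  constructor
  · linarith
  · linarith

end Pool.Agent.Helper17.ZTH
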