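import Pool.Agent.Helper17.ZTH.General

/-!
# Prefixes of cells
-/

set_option autoImplicit false

open Finset

namespace Pool.Agent.Helper17.ZTH

/-- consecutive elements with a change -/
theorem exists_change {P : ℕ → Prop} {a b : ℕ} (hab : a ≤ b) (ha : P a) (hb : ¬ P b) :
    ∃ c, a ≤ c ∧ c < b ∧ P c ∧ ¬ P (c + 1) := by
  induction b, hab using Nat.le_induction with
  | base => exact absurd ha hb
  | succ b hab ih =>
    by_cases h : P b
    · exact ⟨b, hab, by omega, h, hb⟩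
    · obtain ⟨c, h1, h2, h3, h4⟩ := ih h
      exact ⟨c, h1, by omega, h3, h4⟩

/-- in a block which is neither full nor empty there is a change -/
theorem exists_change_block {P : ℕ → Prop} {B e : ℕ} {r s : ℕ} (hr : r < B) (hs : s < B)
    (h1 : P (B * e + r)) (h2 : ¬ P (B * e + s)) :
    ∃ c, (c + 1) / B = e ∧ ¬ (P c ↔ P (c + 1)) := by
  have hB : 0 < B := by omega
  have hdiv : ∀ t, t < B → (B * e + t) / B = e := by
    intro t ht
    rw [Nat.mul_add_div hB, Nat.div_eq_of_lt ht, add_zero]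
  rcases Nat.lt_or_ge r s with h | h
  · obtain ⟨c, c1, c2, c3, c4⟩ := exists_change (a := B * e + r) (b := B * e + s) (by omega) h1 h2
    refine ⟨c, ?_, fun hh => c4 (hh.1 c3)⟩
    rw [show c + 1 = B * e + (c + 1 - B * e) by omega]
    exact hdiv _ (by omega)
  · obtain ⟨c, c1, c2, c3, c4⟩ := exists_change (P := fun x => ¬ P x) (a := B * e + s)
      (b := B * e + r) (by omega) h2 (not_not.2 h1)
    refine ⟨c, ?_, fun hh => c3 (hh.2 (not_not.1 c4))⟩
    rw [show c + 1 = B * e + (c + 1 - B * e) by omega]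
    exact hdiv _ (by omega)

/-- a change of a letter -/
theorem letter_change {p q N c : ℕ} (j : ℕ)
    (h : letter p q N c j ≠ letter p q N (c + 1) j) : q ^ (j + 1) * p ^ (N - 1 - j) ∣ c + 1 := by
  by_contra hcon
  apply h
  unfold letter
  rw [Nat.succ_div_of_not_dvd hcon]

/-- the codes where a letter changes -/
def bdry (N : ℕ) : Finset ℕ :=
  (range N).biUnion fun j => (range (3 ^ (j + 1) * 2 ^ (N - 1 - j))).image
    fun i => i * (2 ^ (j + 1) * 3 ^ (N - 1 - j))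

theorem sum_bdry (N : ℕ) : ∑ j ∈ range N, 3 ^ (j + 1) * 2 ^ (N - 1 - j) + 3 * 2 ^ N = 3 ^ (N + 1) := by
  induction N with
  | zero => simp
  | succ N ih =>
    rw [Finset.sum_range_succ, Nat.add_sub_cancel, Nat.sub_self, pow_zero, mul_one]
    have h1 : ∑ j ∈ range N, 3 ^ (j + 1) * 2 ^ (N - j) =
        2 * ∑ j ∈ range N, 3 ^ (j + 1) * 2 ^ (N - 1 - j) := by
      rw [Finset.mul_sum]
      refine Finset.sum_congr rfl fun j hj => ?_
      have := Finset.mem_range.1 hj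
      rw [show N - j = (N - 1 - j) + 1 by omega, pow_succ]
      ring
    rw [h1, pow_succ 2 N, pow_succ 3 (N + 1)]
    omega

theorem card_bdry (N : ℕ) : (bdry N).card ≤ 3 ^ (N + 1) := by
  refine (Finset.card_biUnion_le.trans (Finset.sum_le_sum (g := fun j => 3 ^ (j + 1) * 2 ^ (N - 1 - j))
    fun j _ => Finset.card_image_le.trans (by rw [Finset.card_range]))).trans ?_
  have := sum_bdry N
  omega

theorem mem_bdry {N b j : ℕ} (hj : j < N) (hb : b < 6 ^ N) (h : 2 ^ (j + 1) * 3 ^ (N - 1 - j) ∣ b) :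
    b ∈ bdry N := by
  obtain ⟨i, rfl⟩ := h
  refine Finset.mem_biUnion.2 ⟨j, Finset.mem_range.2 hj, Finset.mem_image.2 ⟨i, ?_, mul_comm _ _⟩⟩
  rw [Finset.mem_range]
  have h1 : (6 : ℕ) ^ N = (2 ^ (j + 1) * 3 ^ (N - 1 - j)) * (3 ^ (j + 1) * 2 ^ (N - 1 - j)) := by
    rw [show (2 ^ (j + 1) * 3 ^ (N - 1 - j)) * (3 ^ (j + 1) * 2 ^ (N - 1 - j)) =
      (2 ^ (j + 1) * 2 ^ (N - 1 - j)) * (3 ^ (j + 1) * 3 ^ (N - 1 - j)) by ring, ← pow_add,
      ← pow_add, show j + 1 + (N - 1 - j) = N by omega, ← mul_pow]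
    norm_num
  rw [h1] at hb
  exact lt_of_mul_lt_mul_left hb (Nat.zero_le _)

/-- **the number of prefixes** -/
theorem card_prefix {n N : ℕ} (hnN : n ≤ N) (S : Finset (Fin N → Fin 3)) (E : Finset ℕ)
    (hE : ∀ e, e ∈ E ↔ e < 6 ^ N ∧ word 3 2 N (by norm_num) e ∈ S) :
    6 ^ (N - n) * (E.image fun e => e / 6 ^ (N - n)).card ≤
      E.card + 6 ^ (N - n) * 3 ^ (N + 1) := by
  classical
  obtain ⟨B, hB⟩ : ∃ B, B = 6 ^ (N - n) := ⟨_, rfl⟩
  rw [← hB]
  have hB0 : 0 < B := by rw [hB]; positivity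
  have hN : (6 : ℕ) ^ N = B * 6 ^ n := by
    rw [hB, ← pow_add]
    congr 1
    omega
  set I := E.image fun e => e / B with hI
  set full := I.filter fun e => ∀ r < B, B * e + r ∈ E with hfull
  have h1 : B * full.card ≤ E.card := by
    have : (full ×ˢ range B).card ≤ E.card := by
      refine Finset.card_le_card_of_injOn (fun x => B * x.1 + x.2) ?_ ?_
      · intro x hx
        have hx' := Finset.mem_product.1 (Finset.mem_coe.1 hx)
        exact Finset.mem_coe.2 ((Finset.mem_filter.1 hx'.1).2 _ (Finset.mem_range.1 hx'.2))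
      · intro x hx y hy hxy
        have hx' := Finset.mem_range.1 (Finset.mem_product.1 (Finset.mem_coe.1 hx)).2
        have hy' := Finset.mem_range.1 (Finset.mem_product.1 (Finset.mem_coe.1 hy)).2
        dsimp only at hxy
        have e1 : (B * x.1 + x.2) / B = x.1 := by
          rw [Nat.mul_add_div hB0, Nat.div_eq_of_lt hx', add_zero]
        have e2 : (B * y.1 + y.2) / B = y.1 := by
          rw [Nat.mul_add_div hB0, Nat.div_eq_of_lt hy', add_zero]
        have e3 : x.1 = y.1 := by rw [← e1, ← e2, hxy]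
        rw [e3] at hxy
        exact Prod.ext e3 (by omega)
    rw [Finset.card_product, Finset.card_range, mul_comm] at this
    exact this
  have h2 : (I \ full).card ≤ 3 ^ (N + 1) := by
    refine le_trans ?_ (card_bdry N)
    refine le_trans (Finset.card_le_card ?_) (Finset.card_image_le (s := bdry N) (f := fun b => b / B))
    intro e he
    rw [Finset.mem_sdiff] at he
    obtain ⟨he1, he2⟩ := he
    obtain ⟨a, ha, hae⟩ := Finset.mem_image.1 he1
    have he2' : ∃ s < B, B * e + s ∉ E := by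
      by_contra hcon
      push Not at hcon
      exact he2 (Finset.mem_filter.2 ⟨he1, hcon⟩)
    obtain ⟨s, hs, hs'⟩ := he2'
    have ha2 : B * e + a % B ∈ E := by rw [← hae, Nat.div_add_mod]; exact ha
    obtain ⟨c, hc1, hc2⟩ := exists_change_block (P := fun x => x ∈ E) (Nat.mod_lt a hB0) hs ha2 hs'
    have helt : e < 6 ^ n := by
      rw [← hae, Nat.div_lt_iff_lt_mul hB0, mul_comm, ← hN]
      exact ((hE a).1 ha).1
    have hclt : c + 1 < 6 ^ N := by
      rw [hN]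
      have : c + 1 < B * (e + 1) := by
        rw [← hc1]
        exact Nat.lt_mul_div_succ _ hB0
      exact this.trans_le (Nat.mul_le_mul_left _ helt)
    have hw : word 3 2 N (by norm_num) c ≠ word 3 2 N (by norm_num) (c + 1) := by
      intro hw
      apply hc2
      rw [hE, hE, hw]
      exact ⟨fun h => ⟨hclt, h.2⟩, fun h => ⟨by omega, h.2⟩⟩
    obtain ⟨j, hj⟩ := Function.ne_iff.1 hw
    refine Finset.mem_image.2 ⟨c + 1, mem_bdry j.2 hclt ?_, hc1⟩
    refine letter_change j fun h => hj ?_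
    exact Fin.ext h
  have h3 : I.card = full.card + (I \ full).card := by
    have hsub : full ⊆ I := Finset.filter_subset _ _
    have := Finset.card_sdiff_add_card_eq_card hsub
    omega
  rw [h3, mul_add]
  exact Nat.add_le_add h1 (Nat.mul_le_mul_left _ h2)

/-- **the coarse codes** -/
theorem coarse {n N : ℕ} (h3 : 3 ≤ N) (hnN : n ≤ N) : ∃ E : Finset ℕ,
    (∀ e ∈ E, e < 6 ^ n) ∧
    (E.card : ℝ) ≤ 6 ^ n / N + 6 ^ n / 3 ^ N.totient + 3 ^ (N + 1) ∧
    ∀ x : ℕ → ℝ, (∀ k, 2 * x (k + 1) = 3 * x k) → ∀ k₀, ∃ k, k₀ ≤ k ∧ k ≤ k₀ + 3 ^ N ∧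
      code 3 2 n (x k) ∈ E := by
  classical
  obtain ⟨E₀, hE₀⟩ : ∃ E₀, E₀ = EZ 3 2 N (by norm_num) := ⟨_, rfl⟩
  have hmem : ∀ e, e ∈ E₀ ↔ e < 6 ^ N ∧ word 3 2 N (by norm_num) e ∈ hits N 3 ∪ zeros N 3 := by
    intro e
    rw [hE₀, EZ, Finset.mem_filter, Finset.mem_range]
  have hc := card_prefix hnN (hits N 3 ∪ zeros N 3) E₀ hmem
  have hc0 := card_EZ (p := 3) (q := 2) (by norm_num) (by norm_num) (by norm_num) h3
  rw [← hE₀] at hc0
  refine ⟨E₀.image fun e => e / 6 ^ (N - n), ?_, ?_, ?_⟩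
  · intro e he
    obtain ⟨a, ha, rfl⟩ := Finset.mem_image.1 he
    rw [Nat.div_lt_iff_lt_mul (by positivity), ← pow_add, show n + (N - n) = N by omega]
    exact ((hmem a).1 ha).1
  · obtain ⟨C, hC⟩ : ∃ C, C = (E₀.image fun e => e / 6 ^ (N - n)).card := ⟨_, rfl⟩
    rw [← hC] at hc ⊢
    have hN0 : (0 : ℝ) < N := by positivity
    have hc' : (6 : ℝ) ^ (N - n) * C ≤ E₀.card + 6 ^ (N - n) * 3 ^ (N + 1) := by exact_mod_cast hc
    have hc0' : (N : ℝ) * E₀.card ≤ 6 ^ N + N * (2 ^ N * 3 ^ (N - N.totient)) := by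
      norm_num at hc0
      exact_mod_cast hc0
    have e1 : (6 : ℝ) ^ N = 6 ^ (N - n) * 6 ^ n := by rw [← pow_add]; congr 1; omega
    have e2 : (2 : ℝ) ^ N * 3 ^ (N - N.totient) = 6 ^ N / 3 ^ N.totient := by
      rw [eq_div_iff (by positivity), mul_assoc, ← pow_add, Nat.sub_add_cancel (Nat.totient_le N),
        ← mul_pow]
      norm_num
    rw [e2] at hc0'
    have e3 : (E₀.card : ℝ) ≤ 6 ^ N / N + 6 ^ N / 3 ^ N.totient := by
      rw [← mul_le_mul_iff_right₀ hN0, mul_add, mul_div_cancel₀ _ hN0.ne']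
      exact hc0'
    have hB : (0 : ℝ) < 6 ^ (N - n) := by positivity
    rw [← mul_le_mul_iff_right₀ hB]
    calc (6 : ℝ) ^ (N - n) * C ≤ E₀.card + 6 ^ (N - n) * 3 ^ (N + 1) := hc'
      _ ≤ 6 ^ N / N + 6 ^ N / 3 ^ N.totient + 6 ^ (N - n) * 3 ^ (N + 1) := by linarith
      _ = 6 ^ (N - n) * (6 ^ n / N + 6 ^ n / 3 ^ N.totient + 3 ^ (N + 1)) := by
        rw [e1]
        ring
  · intro x hx k₀
    obtain ⟨k, h1, h2, h4⟩ := gap_zero (p := 3) (q := 2) (n := N) (x := x) (by norm_num)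
      (by norm_num) h3 (fun k => by push_cast; exact hx k) k₀
    refine ⟨k, h1, h2, Finset.mem_image.2 ⟨_, ?_, code_div hnN (x k)⟩⟩
    rw [hE₀]
    exact h4

end Pool.Agent.Helper17.ZTH
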