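import Mathlib

/-!
# Closed walks and Mykkeltveit's set
-/

set_option autoImplicit false

open Finset

namespace Pool.Agent.Helper17.ZTH

/-- the root of unity -/
noncomputable def om (n : ℕ) : ℂ := Complex.exp (2 * Real.pi * Complex.I / n)

theorem om_prim {n : ℕ} (hn : n ≠ 0) : IsPrimitiveRoot (om n) n := Complex.isPrimitiveRoot_exp n hn

/-- the weight of a word -/
noncomputable def Psi (n : ℕ) (w : ℕ → ℕ) : ℂ := ∑ j ∈ range n, (w j : ℂ) * om n ^ j

/-- the window of a sequence -/
def win (a : ℕ → ℕ) (i : ℕ) : ℕ → ℕ := fun j => a (i + j)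

theorem Psi_step {n : ℕ} (hn : n ≠ 0) (a : ℕ → ℕ) (i : ℕ) :
    om n * Psi n (win a (i + 1)) = Psi n (win a i) - a i + a (i + n) := by
  have h1 : ∑ j ∈ range (n + 1), (a (i + j) : ℂ) * om n ^ j =
      ∑ j ∈ range n, (a (i + (j + 1)) : ℂ) * om n ^ (j + 1) + a (i + 0) * om n ^ 0 := by
    rw [Finset.sum_range_succ']
  have h2 : ∑ j ∈ range (n + 1), (a (i + j) : ℂ) * om n ^ j =
      ∑ j ∈ range n, (a (i + j) : ℂ) * om n ^ j + a (i + n) * om n ^ n := by
    rw [Finset.sum_range_succ]
  rw [(om_prim hn).pow_eq_one, mul_one] at h2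
  rw [h2, pow_zero, mul_one, add_zero] at h1
  unfold Psi win
  rw [Finset.mul_sum]
  have h3 : ∑ j ∈ range n, om n * ((a (i + 1 + j) : ℂ) * om n ^ j) =
      ∑ j ∈ range n, (a (i + (j + 1)) : ℂ) * om n ^ (j + 1) := by
    refine Finset.sum_congr rfl fun j _ => ?_
    rw [show i + 1 + j = i + (j + 1) by ring, pow_succ]
    ring
  rw [h3]
  linear_combination -h1

theorem Psi_congr {n : ℕ} {v w : ℕ → ℕ} (h : ∀ j < n, v j = w j) : Psi n v = Psi n w := by
  unfold Psi
  refine Finset.sum_congr rfl fun j hj => ?_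
  rw [h j (Finset.mem_range.1 hj)]

/-- the sum over a closed walk vanishes -/
theorem sum_closed {n : ℕ} (hn : 2 ≤ n) (a : ℕ → ℕ) (k m : ℕ)
    (h : ∀ t < n, a (k + m + t) = a (k + t)) :
    ∑ i ∈ range m, Psi n (win a (k + i)) = 0 := by
  have hn0 : n ≠ 0 := by omega
  have e1 : ∑ i ∈ range m, om n * Psi n (win a (k + i + 1)) =
      ∑ i ∈ range m, (Psi n (win a (k + i)) - a (k + i) + a (k + i + n)) :=
    Finset.sum_congr rfl fun i _ => Psi_step hn0 a (k + i)
  have e2 : ∑ i ∈ range m, Psi n (win a (k + i + 1)) =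
      ∑ i ∈ range m, Psi n (win a (k + i)) := by
    have f1 := Finset.sum_range_succ (fun i => Psi n (win a (k + i))) m
    have f2 := Finset.sum_range_succ' (fun i => Psi n (win a (k + i))) m
    have f3 : Psi n (win a (k + m)) = Psi n (win a (k + 0)) := by
      refine Psi_congr fun j hj => ?_
      unfold win
      rw [add_zero]
      exact h j hj
    rw [f1, f3] at f2
    exact (add_right_cancel f2).symm
  have e3 : ∑ i ∈ range m, ((a (k + i + n) : ℂ) - a (k + i)) = 0 := by
    have f1 : ∀ m : ℕ, ∑ i ∈ range m, ((a (k + i + n) : ℂ) - a (k + i)) =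
        ∑ t ∈ range n, ((a (k + m + t) : ℂ) - a (k + t)) := by
      intro m
      induction m with
      | zero => simp
      | succ m ih =>
        rw [Finset.sum_range_succ, ih, Finset.sum_sub_distrib, Finset.sum_sub_distrib]
        have g1 := Finset.sum_range_succ (fun t => (a (k + m + t) : ℂ)) n
        have g2 := Finset.sum_range_succ' (fun t => (a (k + m + t) : ℂ)) n
        have g3 : ∑ t ∈ range n, (a (k + m + (t + 1)) : ℂ) =
            ∑ t ∈ range n, (a (k + (m + 1) + t) : ℂ) :=
          Finset.sum_congr rfl fun t _ => by rw [show k + m + (t + 1) = k + (m + 1) + t by ring]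
        rw [g3, add_zero] at g2
        linear_combination g2 - g1
    rw [f1 m]
    refine Finset.sum_eq_zero fun t ht => ?_
    rw [h t (Finset.mem_range.1 ht), sub_self]
  rw [← Finset.mul_sum, e2, Finset.sum_add_distrib, Finset.sum_sub_distrib] at e1
  rw [Finset.sum_sub_distrib] at e3
  have e4 : (om n - 1) * ∑ i ∈ range m, Psi n (win a (k + i)) = 0 := by
    linear_combination e1 + e3
  have e5 : om n ≠ 1 := (om_prim hn0).ne_one (by omega)
  exact (mul_eq_zero.1 e4).resolve_left (sub_ne_zero.2 e5)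

/-- a hit -/
def Hit (n : ℕ) (w : ℕ → ℕ) : Prop := 0 < (Psi n w).im ∧ (om n * Psi n w).im ≤ 0

theorem Hit_congr {n : ℕ} {v w : ℕ → ℕ} (h : ∀ j < n, v j = w j) : Hit n v ↔ Hit n w := by
  unfold Hit
  rw [Psi_congr h]

theorem im_step {n : ℕ} (hn : n ≠ 0) (a : ℕ → ℕ) (i : ℕ) :
    (om n * Psi n (win a (i + 1))).im = (Psi n (win a i)).im := by
  rw [Psi_step hn]
  simp

theorem om_im {n : ℕ} (hn : 3 ≤ n) : 0 < (om n).im := by
  have hn0 : (0 : ℝ) < n := by positivity
  have h1 : om n = Complex.exp (((2 * Real.pi / n : ℝ) : ℂ) * Complex.I) := by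
    unfold om
    congr 1
    push_cast
    ring
  rw [h1, Complex.exp_ofReal_mul_I_im]
  apply Real.sin_pos_of_pos_of_lt_pi
  · positivity
  · rw [div_lt_iff₀ hn0]
    have : (3 : ℝ) ≤ n := by exact_mod_cast hn
    nlinarith [Real.pi_pos]

/-- a word with two vanishing imaginary parts -/
theorem Psi_zero {n : ℕ} (hn : 3 ≤ n) {w : ℕ → ℕ} (h1 : (Psi n w).im = 0)
    (h2 : (om n * Psi n w).im = 0) : Psi n w = 0 := by
  rw [Complex.mul_im, h1, mul_zero, zero_add] at h2
  have h3 := om_im hn
  apply Complex.ext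
  · exact (mul_eq_zero.1 h2).resolve_left h3.ne'
  · exact h1

/-- for a prime length the words of weight zero are the constant words -/
theorem const_of_Psi_zero {n : ℕ} (hn : n.Prime) {w : ℕ → ℕ} (h : Psi n w = 0) :
    ∀ j < n, w j = w (n - 1) := by
  have hn2 := hn.two_le
  have hprim := om_prim hn.ne_zero
  -- subtract the constant word
  have hgeom : ∑ j ∈ range n, om n ^ j = 0 := hprim.geom_sum_eq_zero hn.one_lt
  have h1 : ∑ j ∈ range n, ((w j : ℂ) - w (n - 1)) * om n ^ j = 0 := by
    have : ∑ j ∈ range n, ((w j : ℂ) - w (n - 1)) * om n ^ j =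
        Psi n w - w (n - 1) * ∑ j ∈ range n, om n ^ j := by
      unfold Psi
      rw [Finset.mul_sum, ← Finset.sum_sub_distrib]
      exact Finset.sum_congr rfl fun j _ => by ring
    rw [this, h, hgeom]
    ring
  obtain ⟨m, rfl⟩ : ∃ m, n = m + 1 := ⟨n - 1, by omega⟩
  rw [Finset.sum_range_succ, Nat.add_sub_cancel, sub_self, zero_mul, add_zero] at h1
  rw [Nat.add_sub_cancel]
  set P : Polynomial ℚ := ∑ j ∈ range m, Polynomial.monomial j ((w j : ℚ) - w m) with hP
  have h2 : Polynomial.aeval (om (m + 1)) P = 0 := by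
    rw [hP, map_sum, ← h1]
    refine Finset.sum_congr rfl fun j _ => ?_
    rw [Polynomial.aeval_monomial]
    simp
  have h3 : minpoly ℚ (om (m + 1)) ∣ P := minpoly.dvd ℚ _ h2
  rw [← Polynomial.cyclotomic_eq_minpoly_rat hprim hn.pos] at h3
  have h4 : P = 0 := by
    refine Polynomial.eq_zero_of_dvd_of_degree_lt h3 ?_
    rw [Polynomial.degree_cyclotomic, Nat.totient_prime hn, Nat.add_sub_cancel]
    refine (Polynomial.degree_sum_le _ _).trans_lt ?_
    rw [Finset.sup_lt_iff]
    · intro j hj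
      refine (Polynomial.degree_monomial_le _ _).trans_lt ?_
      exact_mod_cast Finset.mem_range.1 hj
    · exact_mod_cast WithBot.bot_lt_coe _
  intro j hj
  rcases Nat.lt_succ_iff_lt_or_eq.1 hj with hj' | rfl
  · have h5 : P.coeff j = (w j : ℚ) - w m := by
      rw [hP, Polynomial.finsetSum_coeff]
      rw [Finset.sum_eq_single j]
      · rw [Polynomial.coeff_monomial, if_pos rfl]
      · intro b _ hb
        rw [Polynomial.coeff_monomial, if_neg hb]
      · intro hb
        exact absurd (Finset.mem_range.2 hj') hb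
    rw [h4, Polynomial.coeff_zero] at h5
    have h6 : (w j : ℚ) = w m := by linarith
    exact_mod_cast h6
  · rfl

/-- **closed walks**: a closed walk without hits consists of constant words. -/
theorem closed_walk {n : ℕ} (hn : n.Prime) (h3 : 3 ≤ n) (a : ℕ → ℕ) (k m : ℕ)
    (h : ∀ t < n, a (k + m + t) = a (k + t))
    (hhit : ∀ i, k < i → i ≤ k + m → ¬ Hit n (win a i)) :
    ∀ i, k < i → i ≤ k + m → ∀ j < n, a (i + j) = a (i + (n - 1)) := by
  have hn0 : n ≠ 0 := by omega
  rcases Nat.eq_zero_or_pos m with rfl | hm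
  · intro i h1 h2
    omega
  set g : ℕ → ℝ := fun i => (Psi n (win a i)).im with hg
  have hsum : ∑ i ∈ range m, g (k + i) = 0 := by
    have := congrArg Complex.im (sum_closed (by omega) a k m h)
    rwa [Complex.im_sum, Complex.zero_im] at this
  have hdown : ∀ i, k ≤ i → i + 1 ≤ k + m → 0 < g (i + 1) → 0 < g i := by
    intro i hi hi2 hp
    by_contra hcon
    exact hhit (i + 1) (by omega) hi2 ⟨hp, by rw [im_step hn0]; exact not_lt.1 hcon⟩
  have hdown2 : ∀ d i, k ≤ i → i + d ≤ k + m → 0 < g (i + d) → 0 < g i := by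
    intro d
    induction d with
    | zero => intro i _ _ hp; exact hp
    | succ d ih =>
      intro i hi hi2 hp
      exact ih i hi (by omega) (hdown (i + d) (by omega) (by omega) hp)
  have hend : g (k + m) = g k := by
    rw [hg]
    dsimp only
    rw [Psi_congr (v := win a (k + m)) (w := win a k) fun j hj => h j hj]
  have hle : ∀ i, k ≤ i → i ≤ k + m → g i ≤ 0 := by
    by_contra hcon
    push Not at hcon
    obtain ⟨i, hi1, hi2, hi3⟩ := hcon
    have hk : 0 < g k := by
      have := hdown2 (i - k) k le_rfl (by omega)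
      rw [Nat.add_sub_cancel' hi1] at this
      exact this hi3
    have hall : ∀ i, k ≤ i → i ≤ k + m → 0 < g i := by
      intro i hi1 hi2
      have := hdown2 (k + m - i) i hi1 (by omega)
      rw [Nat.add_sub_cancel' hi2, hend] at this
      exact this hk
    have : 0 < ∑ i ∈ range m, g (k + i) := by
      refine Finset.sum_pos (fun i hi => hall (k + i) (by omega) ?_) ⟨0, Finset.mem_range.2 hm⟩
      have := Finset.mem_range.1 hi
      omega
    linarith
  have hz : ∀ i ∈ range m, g (k + i) = 0 := by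
    rw [← Finset.sum_eq_zero_iff_of_nonpos]
    · exact hsum
    · intro i hi
      have := Finset.mem_range.1 hi
      exact hle (k + i) (by omega) (by omega)
  have hz2 : ∀ i, k ≤ i → i ≤ k + m → g i = 0 := by
    intro i h1 h2
    rcases Nat.lt_or_ge i (k + m) with h4 | h4
    · have := hz (i - k) (Finset.mem_range.2 (by omega))
      rwa [Nat.add_sub_cancel' h1] at this
    · have h5 : i = k + m := by omega
      rw [h5, hend]
      exact hz 0 (Finset.mem_range.2 hm)
  intro i h1 h2
  obtain ⟨i', rfl⟩ : ∃ i', i = i' + 1 := ⟨i - 1, by omega⟩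
  have h4 : Psi n (win a (i' + 1)) = 0 :=
    Psi_zero h3 (hz2 (i' + 1) (by omega) h2) (by rw [im_step hn0]; exact hz2 i' (by omega) (by omega))
  exact const_of_Psi_zero hn h4

/-- along a closed walk without hits the sequence is constant -/
theorem closed_walk_const {n : ℕ} (hn : n.Prime) (h3 : 3 ≤ n) (a : ℕ → ℕ) (k m : ℕ)
    (h : ∀ t < n, a (k + m + t) = a (k + t))
    (hhit : ∀ i, k < i → i ≤ k + m → ¬ Hit n (win a i)) :
    ∀ i, k ≤ i → i ≤ k + m → a i = a k := by
  have h1 := closed_walk hn h3 a k m h hhit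
  rcases Nat.eq_zero_or_pos m with rfl | hm
  · intro i h1 h2
    rw [show i = k by omega]
  have hk : a k = a (k + 1) := by
    have e1 := h 0 (by omega)
    have e2 := h 1 (by omega)
    have e3 := h1 (k + m) (by omega) le_rfl 0 (by omega)
    have e4 := h1 (k + m) (by omega) le_rfl 1 (by omega)
    rw [add_zero] at e3
    simp only [add_zero] at e1
    rw [← e1, ← e2, e3, e4]
  intro i hi1 hi2
  induction i with
  | zero => rw [show k = 0 by omega]
  | succ i ih =>
    rcases Nat.lt_or_ge i k with h4 | h4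
    · rw [show i + 1 = k by omega]
    · rw [← ih h4 (by omega)]
      rcases Nat.eq_or_lt_of_le h4 with h5 | h5
      · rw [← h5]; exact hk.symm
      · have e3 := h1 i h5 (by omega) 0 (by omega)
        have e4 := h1 i h5 (by omega) 1 (by omega)
        rw [add_zero] at e3
        rw [e3, e4]

/-- **infinitely many hits** -/
theorem infinite_hits {n p : ℕ} (hn : n.Prime) (h3 : 3 ≤ n) (a : ℕ → ℕ) (hp : ∀ i, a i < p)
    (hconst : ∀ K, ∃ i, K ≤ i ∧ a i ≠ a K) : {i : ℕ | Hit n (win a i)}.Infinite := by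
  intro hfin
  obtain ⟨K, hK⟩ : ∃ K, ∀ i, K ≤ i → ¬ Hit n (win a i) := by
    obtain ⟨B, hB⟩ := hfin.bddAbove
    refine ⟨B + 1, fun i hi hh => ?_⟩
    have := hB hh
    omega
  let c : ℕ → (Fin n → Fin p) := fun i j => ⟨a (K + i + j), hp _⟩
  obtain ⟨w, hw⟩ := Finite.exists_infinite_fiber c
  rw [Set.infinite_coe_iff] at hw
  obtain ⟨k, hk⟩ := hw.nonempty
  have key : ∀ i, K + k ≤ i → a i = a (K + k) := by
    intro i hi
    obtain ⟨l, hl1, hl2⟩ := hw.exists_gt (i - K)
    have hl : k < l := by omega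
    refine closed_walk_const hn h3 a (K + k) (l - k) ?_ ?_ i hi (by omega)
    · intro t ht
      have e1 := congrFun (show c l = c k from (by
        rw [show c l = w from hl1, show c k = w from hk])) ⟨t, ht⟩
      have e2 : a (K + l + t) = a (K + k + t) := by
        simpa [c, Fin.ext_iff] using e1
      rw [show K + k + (l - k) + t = K + l + t by omega]
      exact e2
    · intro i h1 _
      exact hK i (by omega)
  obtain ⟨i, hi1, hi2⟩ := hconst (K + k)
  exact hi2 (key i hi1)

/-- **bounded gaps** -/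
theorem bounded_gap {n p : ℕ} (hn : n.Prime) (h3 : 3 ≤ n) (a : ℕ → ℕ) (hp : ∀ i, a i < p)
    (k₀ : ℕ) : ∃ i, k₀ ≤ i ∧ i ≤ k₀ + p ^ n ∧
      (Hit n (win a i) ∨ ∀ j < n, win a i j = win a i (n - 1)) := by
  let c : Fin (p ^ n + 1) → (Fin n → Fin p) := fun i j => ⟨a (k₀ + i + j), hp _⟩
  obtain ⟨x, y, hxy, hc⟩ := Fintype.exists_ne_map_eq_of_card_lt c (by simp)
  wlog hlt : x < y generalizing x y
  · exact this y x hxy.symm hc.symm (lt_of_le_of_ne (not_lt.1 hlt) hxy.symm)
  have hlt' : (x : ℕ) < y := hlt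
  by_cases hh : ∃ i, k₀ + x < i ∧ i ≤ k₀ + y ∧ Hit n (win a i)
  · obtain ⟨i, h1, h2, h4⟩ := hh
    exact ⟨i, by omega, by omega, Or.inl h4⟩
  · push Not at hh
    have h4 := closed_walk hn h3 a (k₀ + x) (y - x) ?_ ?_ (k₀ + y) (by omega) (by omega)
    · exact ⟨k₀ + y, by omega, by omega, Or.inr h4⟩
    · intro t ht
      have e1 := congrFun hc ⟨t, ht⟩
      have e2 : a (k₀ + x + t) = a (k₀ + y + t) := by
        simpa [c, Fin.ext_iff] using e1
      rw [show k₀ + ↑x + (↑y - ↑x) + t = k₀ + y + t by omega]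
      exact e2.symm
    · intro i h1 h2
      exact hh i h1 (by omega)

end Pool.Agent.Helper17.ZTH
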