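import Pool.Agent.Helper17.ZTH.Core

/-!
# The number of hits
-/

set_option autoImplicit false

open Finset

namespace Pool.Agent.Helper17.ZTH

/-- extension of a word by zero -/
def ext {n p : ℕ} (w : Fin n → Fin p) : ℕ → ℕ := fun j => if h : j < n then w ⟨j, h⟩ else 0

theorem ext_lt {n p : ℕ} (w : Fin n → Fin p) {j : ℕ} (h : j < n) : ext w j = w ⟨j, h⟩ := by
  rw [ext, dif_pos h]

theorem Psi_ext {n p : ℕ} (w : Fin n → Fin p) :
    Psi n (ext w) = ∑ j : Fin n, ((w j : ℕ) : ℂ) * om n ^ (j : ℕ) := by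
  unfold Psi
  rw [← Fin.sum_univ_eq_sum_range (fun j => (ext w j : ℂ) * om n ^ j) n]
  refine Finset.sum_congr rfl fun j _ => ?_
  rw [ext_lt w j.2]

/-- rotation -/
def rot {n p : ℕ} [NeZero n] (i : Fin n) (w : Fin n → Fin p) : Fin n → Fin p := fun j => w (j + i)

theorem Psi_rot {n p : ℕ} [NeZero n] (i : Fin n) (w : Fin n → Fin p) :
    Psi n (ext (rot i w)) * om n ^ (i : ℕ) = Psi n (ext w) := by
  rw [Psi_ext, Psi_ext, Finset.sum_mul]
  rw [← Equiv.sum_comp (Equiv.addRight i) (fun j => ((w j : ℕ) : ℂ) * om n ^ (j : ℕ))]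
  refine Finset.sum_congr rfl fun j _ => ?_
  rw [Equiv.coe_addRight, rot, mul_assoc, ← pow_add, Fin.val_add]
  congr 1
  exact pow_eq_pow_mod _ (om_prim (NeZero.ne n)).pow_eq_one

theorem om_pow (n m : ℕ) : om n ^ m =
    Complex.exp (((m * (2 * Real.pi / n) : ℝ) : ℂ) * Complex.I) := by
  unfold om
  rw [← Complex.exp_nat_mul]
  congr 1
  push_cast
  ring

theorem im_polar (r t : ℝ) : ((r : ℂ) * Complex.exp ((t : ℂ) * Complex.I)).im = r * Real.sin t := by
  rw [Complex.im_ofReal_mul, Complex.exp_ofReal_mul_I_im]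

/-- the crossing happens at most once -/
theorem cross_once {n : ℕ} (h3 : 3 ≤ n) {z : ℂ} (h1 : 0 < z.im) (h2 : (om n * z).im ≤ 0) {m : ℕ}
    (hm : 0 < m) (hmn : m < n) {z' : ℂ} (hz' : z' * om n ^ m = z) (h4 : 0 < z'.im) :
    0 < (om n * z').im := by
  have hn0 : (0 : ℝ) < n := by positivity
  obtain ⟨θ, hθ⟩ : ∃ θ : ℝ, θ = 2 * Real.pi / n := ⟨_, rfl⟩
  have hθn : θ * n = 2 * Real.pi := by rw [hθ]; field_simp
  have hθ0 : 0 < θ := by rw [hθ]; positivity
  obtain ⟨r, hr⟩ : ∃ r : ℝ, r = ‖z‖ := ⟨_, rfl⟩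
  obtain ⟨α, hα⟩ : ∃ α : ℝ, α = z.arg := ⟨_, rfl⟩
  have hz : z = r * Complex.exp (α * Complex.I) := by
    rw [hr, hα]
    exact (Complex.norm_mul_exp_arg_mul_I z).symm
  have hr0 : 0 < r := by
    rw [hr, norm_pos_iff]
    rintro rfl
    simp at h1
  have hom1 : om n = Complex.exp ((θ : ℂ) * Complex.I) := by
    have := om_pow n 1
    rw [pow_one] at this
    rw [this, hθ]
    simp
  have homm : om n ^ m = Complex.exp (((m * θ : ℝ) : ℂ) * Complex.I) := by
    rw [om_pow, hθ]
  have hzz : z' = r * Complex.exp (((α - m * θ : ℝ) : ℂ) * Complex.I) := by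
    have e1 : om n ^ m ≠ 0 := pow_ne_zero _ (Complex.exp_ne_zero _)
    apply mul_right_cancel₀ e1
    rw [hz', hz, homm, mul_assoc, ← Complex.exp_add]
    congr 2
    push_cast
    ring
  have e2 : (om n * z).im = r * Real.sin (α + θ) := by
    rw [← im_polar, hz, hom1]
    congr 1
    rw [mul_left_comm, ← Complex.exp_add]
    congr 2
    push_cast
    ring
  have e3 : (om n * z').im = r * Real.sin (α - m * θ + θ) := by
    rw [← im_polar, hzz, hom1]
    congr 1
    rw [mul_left_comm, ← Complex.exp_add]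
    congr 2
    push_cast
    ring
  rw [hz, im_polar] at h1
  rw [e2] at h2
  rw [hzz, im_polar] at h4
  rw [e3]
  have s1 : 0 < Real.sin α := (pos_iff_pos_of_mul_pos h1).1 hr0
  have s2 : Real.sin (α + θ) ≤ 0 := by
    by_contra hcon
    push Not at hcon
    nlinarith [mul_pos hr0 hcon]
  have s4 : 0 < Real.sin (α - m * θ) := (pos_iff_pos_of_mul_pos h4).1 hr0
  have a1 : α ≤ Real.pi := by rw [hα]; exact Complex.arg_le_pi z
  have a2 : -Real.pi < α := by rw [hα]; exact Complex.neg_pi_lt_arg z
  have a3 : 0 < α := by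
    by_contra hcon
    push Not at hcon
    have := Real.sin_nonpos_of_nonpos_of_neg_pi_le hcon a2.le
    linarith
  have a4 : α < Real.pi := by
    rcases lt_or_eq_of_le a1 with h | h
    · exact h
    · rw [h, Real.sin_pi] at s1
      exact absurd s1 (lt_irrefl _)
  have a5 : Real.pi ≤ α + θ := by
    by_contra hcon
    push Not at hcon
    have := Real.sin_pos_of_pos_of_lt_pi (by linarith : 0 < α + θ) hcon
    linarith
  have hm1 : (1 : ℝ) ≤ m := by exact_mod_cast hm
  have hmn1 : (m : ℝ) + 1 ≤ n := by exact_mod_cast hmn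
  have a6 : -Real.pi ≤ α - m * θ := by nlinarith
  have a7 : 0 < α - m * θ := by
    by_contra hcon
    push Not at hcon
    have := Real.sin_nonpos_of_nonpos_of_neg_pi_le hcon a6
    linarith
  refine mul_pos hr0 (Real.sin_pos_of_pos_of_lt_pi (by linarith) ?_)
  nlinarith

/-- the words with a hit -/
noncomputable def hits (n p : ℕ) : Finset (Fin n → Fin p) := by
  classical
  exact univ.filter fun w => Hit n (ext w)

theorem mem_hits {n p : ℕ} (w : Fin n → Fin p) : w ∈ hits n p ↔ Hit n (ext w) := by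
  unfold hits
  simp

/-- a rotation class contains at most one hit -/
theorem rot_unique {n p : ℕ} [NeZero n] (h3 : 3 ≤ n) (w : Fin n → Fin p) (i j : Fin n) (hij : i < j)
    (hi : Hit n (ext (rot i w))) (hj : Hit n (ext (rot j w))) : False := by
  have hlt : (i : ℕ) < j := hij
  have e1 := Psi_rot i w
  have e2 := Psi_rot j w
  have hne : om n ^ (i : ℕ) ≠ 0 := pow_ne_zero _ (Complex.exp_ne_zero _)
  have e3 : Psi n (ext (rot j w)) * om n ^ ((j : ℕ) - i) = Psi n (ext (rot i w)) := by
    apply mul_right_cancel₀ hne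
    rw [mul_assoc, ← pow_add, Nat.sub_add_cancel hlt.le, e2, e1]
  have := cross_once h3 hi.1 hi.2 (m := (j : ℕ) - i) (by omega) (by omega) e3 hj.1
  exact absurd hj.2 (not_le.2 this)

theorem rot_bij {n p : ℕ} [NeZero n] (i : Fin n) : Function.Bijective (rot (p := p) i) := by
  have h : ∀ w : Fin n → Fin p, rot (-i) (rot i w) = w := by
    intro w
    funext j
    unfold rot
    congr 1
    abel
  have h' : ∀ w : Fin n → Fin p, rot i (rot (-i) w) = w := by
    intro w
    funext j
    unfold rot
    congr 1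
    abel
  exact ⟨fun a b hab => by rw [← h a, hab, h b], fun w => ⟨rot (-i) w, h' w⟩⟩

/-- a constant word is not a hit -/
theorem not_hit_const {n : ℕ} (h2 : 2 ≤ n) {w : ℕ → ℕ} (hw : ∀ j < n, w j = w (n - 1)) :
    Psi n w = 0 := by
  have h1 : Psi n w = w (n - 1) * ∑ j ∈ range n, om n ^ j := by
    unfold Psi
    rw [Finset.mul_sum]
    exact Finset.sum_congr rfl fun j hj => by rw [hw j (Finset.mem_range.1 hj)]
  rw [h1, (om_prim (by omega)).geom_sum_eq_zero (by omega), mul_zero]

/-- the constant words -/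
def consts (n p : ℕ) : Finset (Fin n → Fin p) := univ.image fun (c : Fin p) (_ : Fin n) => c

theorem card_consts {n p : ℕ} (hn : 0 < n) : (consts n p).card = p := by
  unfold consts
  rw [Finset.card_image_of_injective, Finset.card_univ, Fintype.card_fin]
  intro a b hab
  exact congrFun hab ⟨0, hn⟩

/-- **the number of hits** -/
theorem card_hits {n p : ℕ} (h3 : 3 ≤ n) : n * (hits n p).card + p ≤ p ^ n := by
  classical
  have : NeZero n := ⟨by omega⟩
  have h1 : ∀ i : Fin n, (univ.filter fun w : Fin n → Fin p => rot i w ∈ hits n p).card =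
      (hits n p).card := by
    intro i
    refine Finset.card_bij (fun w _ => rot i w) ?_ ?_ ?_
    · intro w hw
      exact (Finset.mem_filter.1 hw).2
    · intro a _ b _ hab
      exact (rot_bij i).1 hab
    · intro b hb
      obtain ⟨a, rfl⟩ := (rot_bij (p := p) i).2 b
      exact ⟨a, Finset.mem_filter.2 ⟨Finset.mem_univ _, hb⟩, rfl⟩
  have h2 : ∑ i : Fin n, (univ.filter fun w : Fin n → Fin p => rot i w ∈ hits n p).card =
      n * (hits n p).card := by
    rw [Finset.sum_congr rfl fun i _ => h1 i, Finset.sum_const, Finset.card_univ, Fintype.card_fin,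
      smul_eq_mul]
  have h4 : ∑ i : Fin n, (univ.filter fun w : Fin n → Fin p => rot i w ∈ hits n p).card =
      ∑ w : Fin n → Fin p, (univ.filter fun i : Fin n => rot i w ∈ hits n p).card := by
    simp only [Finset.card_filter]
    exact Finset.sum_comm
  have h5 : ∀ w : Fin n → Fin p, (univ.filter fun i : Fin n => rot i w ∈ hits n p).card ≤
      if w ∈ consts n p then 0 else 1 := by
    intro w
    split_ifs with hw
    · obtain ⟨c, _, rfl⟩ := Finset.mem_image.1 hw
      refine (Finset.card_eq_zero.2 (Finset.filter_eq_empty_iff.2 ?_)).le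
      intro i _ hi
      have e1 : rot i (fun _ : Fin n => c) = fun _ => c := rfl
      rw [e1, mem_hits] at hi
      have e2 : Psi n (ext fun _ : Fin n => c) = 0 := by
        refine not_hit_const (by omega) fun j hj => ?_
        rw [ext_lt _ hj, ext_lt _ (by omega)]
      have := hi.1
      rw [e2] at this
      simp at this
    · rw [Finset.card_le_one]
      intro i hi j hj
      have hi' := (mem_hits _).1 (Finset.mem_filter.1 hi).2
      have hj' := (mem_hits _).1 (Finset.mem_filter.1 hj).2
      rcases lt_trichotomy i j with h | h | h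
      · exact (rot_unique h3 w i j h hi' hj').elim
      · exact h
      · exact (rot_unique h3 w j i h hj' hi').elim
  have h6 : ∑ w : Fin n → Fin p, (if w ∈ consts n p then 0 else 1) + p = p ^ n := by
    have e1 : ∑ w : Fin n → Fin p, (if w ∈ consts n p then 0 else 1) =
        (univ \ consts n p).card := by
      rw [Finset.card_eq_sum_ones, ← Finset.filter_notMem_eq_sdiff, Finset.sum_filter]
      refine Finset.sum_congr rfl fun w _ => ?_
      split_ifs <;> simp_all
    rw [e1, Finset.card_sdiff_of_subset (Finset.subset_univ _), Finset.card_univ, card_consts (by omega)]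
    have e2 : Fintype.card (Fin n → Fin p) = p ^ n := by simp
    rw [e2]
    have e3 : p ≤ p ^ n := Nat.le_self_pow (by omega) p
    omega
  calc n * (hits n p).card + p
      = ∑ w : Fin n → Fin p, (univ.filter fun i : Fin n => rot i w ∈ hits n p).card + p := by
        rw [← h4, h2]
    _ ≤ ∑ w : Fin n → Fin p, (if w ∈ consts n p then 0 else 1) + p :=
        Nat.add_le_add_right (Finset.sum_le_sum fun w _ => h5 w) p
    _ = p ^ n := h6

end Pool.Agent.Helper17.ZTH
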