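import Pool.Agent.Helper17.ZTH.Words

/-!
# Closed walks for every length, and the number of words of weight zero
-/

set_option autoImplicit false

open Finset

namespace Pool.Agent.Helper17.ZTH

/-- a closed walk without hits consists of words of weight zero. -/
theorem closed_walk_zero {n : ℕ} (h3 : 3 ≤ n) (a : ℕ → ℕ) (k m : ℕ)
    (h : ∀ t < n, a (k + m + t) = a (k + t))
    (hhit : ∀ i, k < i → i ≤ k + m → ¬ Hit n (win a i)) :
    ∀ i, k < i → i ≤ k + m → Psi n (win a i) = 0 := by
  have hn0 : n ≠ 0 := by omega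
  rcases Nat.eq_zero_or_pos m with rfl | hm
  · intro i h1 h2
    omega
  set g : ℕ → ℝ := fun i => (Psi n (win a i)).im with hg
  have hsum : ∑ i ∈ range m, g (k + i) = 0 := by
    have := congrArg Complex.im (sum_closed (by omega) a k m h)
    rwa [Complex.im_sum, Complex.zero_im] at this
  have hdown : ∀ i, k ≤ i → i + 1 ≤ k + m → 0 < g (i + 1) → 0 < g i := by
    intro i hi hi2 hp
    by_contra hcon
    exact hhit (i + 1) (by omega) hi2 ⟨hp, by rw [im_step hn0]; exact not_lt.1 hcon⟩
  have hdown2 : ∀ d i, k ≤ i → i + d ≤ k + m → 0 < g (i + d) → 0 < g i := by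
    intro d
    induction d with
    | zero => intro i _ _ hp; exact hp
    | succ d ih =>
      intro i hi hi2 hp
      exact ih i hi (by omega) (hdown (i + d) (by omega) (by omega) hp)
  have hend : g (k + m) = g k := by
    rw [hg]
    dsimp only
    rw [Psi_congr (v := win a (k + m)) (w := win a k) fun j hj => h j hj]
  have hle : ∀ i, k ≤ i → i ≤ k + m → g i ≤ 0 := by
    by_contra hcon
    push Not at hcon
    obtain ⟨i, hi1, hi2, hi3⟩ := hcon
    have hk : 0 < g k := by
      have := hdown2 (i - k) k le_rfl (by omega)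
      rw [Nat.add_sub_cancel' hi1] at this
      exact this hi3
    have hall : ∀ i, k ≤ i → i ≤ k + m → 0 < g i := by
      intro i hi1 hi2
      have := hdown2 (k + m - i) i hi1 (by omega)
      rw [Nat.add_sub_cancel' hi2, hend] at this
      exact this hk
    have : 0 < ∑ i ∈ range m, g (k + i) := by
      refine Finset.sum_pos (fun i hi => hall (k + i) (by omega) ?_) ⟨0, Finset.mem_range.2 hm⟩
      have := Finset.mem_range.1 hi
      omega
    linarith
  have hz : ∀ i ∈ range m, g (k + i) = 0 := by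
    rw [← Finset.sum_eq_zero_iff_of_nonpos]
    · exact hsum
    · intro i hi
      have := Finset.mem_range.1 hi
      exact hle (k + i) (by omega) (by omega)
  have hz2 : ∀ i, k ≤ i → i ≤ k + m → g i = 0 := by
    intro i h1 h2
    rcases Nat.lt_or_ge i (k + m) with h4 | h4
    · have := hz (i - k) (Finset.mem_range.2 (by omega))
      rwa [Nat.add_sub_cancel' h1] at this
    · have h5 : i = k + m := by omega
      rw [h5, hend]
      exact hz 0 (Finset.mem_range.2 hm)
  intro i h1 h2
  obtain ⟨i', rfl⟩ : ∃ i', i = i' + 1 := ⟨i - 1, by omega⟩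
  exact Psi_zero h3 (hz2 (i' + 1) (by omega) h2)
    (by rw [im_step hn0]; exact hz2 i' (by omega) (by omega))

/-- **bounded gaps** -/
theorem bounded_gap_zero {n p : ℕ} (h3 : 3 ≤ n) (a : ℕ → ℕ) (hp : ∀ i, a i < p)
    (k₀ : ℕ) : ∃ i, k₀ ≤ i ∧ i ≤ k₀ + p ^ n ∧ (Hit n (win a i) ∨ Psi n (win a i) = 0) := by
  let c : Fin (p ^ n + 1) → (Fin n → Fin p) := fun i j => ⟨a (k₀ + i + j), hp _⟩
  obtain ⟨x, y, hxy, hc⟩ := Fintype.exists_ne_map_eq_of_card_lt c (by simp)
  wlog hlt : x < y generalizing x y
  · exact this y x hxy.symm hc.symm (lt_of_le_of_ne (not_lt.1 hlt) hxy.symm)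
  have hlt' : (x : ℕ) < y := hlt
  by_cases hh : ∃ i, k₀ + x < i ∧ i ≤ k₀ + y ∧ Hit n (win a i)
  · obtain ⟨i, h1, h2, h4⟩ := hh
    exact ⟨i, by omega, by omega, Or.inl h4⟩
  · push Not at hh
    have h4 := closed_walk_zero h3 a (k₀ + x) (y - x) ?_ ?_ (k₀ + y) (by omega) (by omega)
    · exact ⟨k₀ + y, by omega, by omega, Or.inr h4⟩
    · intro t ht
      have e1 := congrFun hc ⟨t, ht⟩
      have e2 : a (k₀ + x + t) = a (k₀ + y + t) := by
        simpa [c, Fin.ext_iff] using e1
      rw [show k₀ + ↑x + (↑y - ↑x) + t = k₀ + y + t by omega]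
      exact e2.symm
    · intro i h1 h2
      exact hh i h1 (by omega)

/-- the words of weight zero -/
noncomputable def zeros (n p : ℕ) : Finset (Fin n → Fin p) := by
  classical
  exact univ.filter fun w => Psi n (ext w) = 0

theorem mem_zeros {n p : ℕ} (w : Fin n → Fin p) : w ∈ zeros n p ↔ Psi n (ext w) = 0 := by
  unfold zeros
  simp

/-- two words of weight zero with the same last letters are equal -/
theorem zeros_inj {n : ℕ} (hn : 0 < n) {v w : ℕ → ℕ} (hv : Psi n v = 0) (hw : Psi n w = 0)
    (h : ∀ j, n.totient ≤ j → j < n → v j = w j) : ∀ j < n, v j = w j := by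
  have hprim := om_prim hn.ne'
  set P : Polynomial ℚ := ∑ j ∈ range n.totient, Polynomial.monomial j ((v j : ℚ) - w j) with hP
  have h2 : Polynomial.aeval (om n) P = 0 := by
    have e1 : ∑ j ∈ range n, ((v j : ℂ) - w j) * om n ^ j = 0 := by
      have : ∑ j ∈ range n, ((v j : ℂ) - w j) * om n ^ j = Psi n v - Psi n w := by
        unfold Psi
        rw [← Finset.sum_sub_distrib]
        exact Finset.sum_congr rfl fun j _ => by ring
      rw [this, hv, hw, sub_zero]
    have e2 : ∑ j ∈ range n.totient, ((v j : ℂ) - w j) * om n ^ j =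
        ∑ j ∈ range n, ((v j : ℂ) - w j) * om n ^ j := by
      refine Finset.sum_subset (Finset.range_subset_range.2 (Nat.totient_le n)) ?_
      intro j hj hj'
      rw [h j (by simpa using hj') (Finset.mem_range.1 hj), sub_self, zero_mul]
    rw [hP, map_sum, ← e1, ← e2]
    refine Finset.sum_congr rfl fun j _ => ?_
    rw [Polynomial.aeval_monomial]
    simp
  have h3 : minpoly ℚ (om n) ∣ P := minpoly.dvd ℚ _ h2
  rw [← Polynomial.cyclotomic_eq_minpoly_rat hprim hn] at h3
  have h4 : P = 0 := by
    refine Polynomial.eq_zero_of_dvd_of_degree_lt h3 ?_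
    rw [Polynomial.degree_cyclotomic]
    refine (Polynomial.degree_sum_le _ _).trans_lt ?_
    rw [Finset.sup_lt_iff]
    · intro j hj
      refine (Polynomial.degree_monomial_le _ _).trans_lt ?_
      exact_mod_cast Finset.mem_range.1 hj
    · exact_mod_cast WithBot.bot_lt_coe _
  intro j hj
  rcases Nat.lt_or_ge j n.totient with hj' | hj'
  · have h5 : P.coeff j = (v j : ℚ) - w j := by
      rw [hP, Polynomial.finsetSum_coeff]
      rw [Finset.sum_eq_single j]
      · rw [Polynomial.coeff_monomial, if_pos rfl]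
      · intro b _ hb
        rw [Polynomial.coeff_monomial, if_neg hb]
      · intro hb
        exact absurd (Finset.mem_range.2 hj') hb
    rw [h4, Polynomial.coeff_zero] at h5
    have h6 : (v j : ℚ) = w j := by linarith
    exact_mod_cast h6
  · exact h j hj' hj

/-- **the number of words of weight zero** -/
theorem card_zeros {n p : ℕ} (hn : 0 < n) : (zeros n p).card ≤ p ^ (n - n.totient) := by
  have hle := Nat.totient_le n
  have : p ^ (n - n.totient) = (univ : Finset (Fin (n - n.totient) → Fin p)).card := by simp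
  rw [this]
  refine Finset.card_le_card_of_injOn
    (fun w (i : Fin (n - n.totient)) => w ⟨n.totient + i, by omega⟩)
    (fun w _ => Finset.mem_coe.2 (Finset.mem_univ _)) ?_
  intro v hv w hw hvw
  have hv' := (mem_zeros v).1 (Finset.mem_coe.1 hv)
  have hw' := (mem_zeros w).1 (Finset.mem_coe.1 hw)
  funext j
  have key := zeros_inj hn hv' hw' (fun j h1 h2 => by
    have e1 := congrFun hvw ⟨j - n.totient, by omega⟩
    dsimp only at e1
    have e2 : (⟨n.totient + (j - n.totient), by omega⟩ : Fin n) = ⟨j, h2⟩ := by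
      apply Fin.ext
      show n.totient + (j - n.totient) = j
      omega
    rw [e2] at e1
    rw [ext_lt v h2, ext_lt w h2, e1]) j j.2
  rw [ext_lt v j.2, ext_lt w j.2] at key
  exact Fin.ext key

/-- the codes with a hit or with a word of letters of weight zero -/
noncomputable def EZ (p q n : ℕ) (hp : 0 < p) : Finset ℕ := by
  classical
  exact (range ((p * q) ^ n)).filter fun e => word p q n hp e ∈ hits n p ∪ zeros n p

theorem card_EZ {p q n : ℕ} (hp : 0 < p) (hq : 0 < q) (hpq : Nat.Coprime p q) (h3 : 3 ≤ n) :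
    n * (EZ p q n hp).card ≤ (p * q) ^ n + n * (q ^ n * p ^ (n - n.totient)) := by
  classical
  have h1 : (EZ p q n hp).card ≤ q ^ n * (hits n p ∪ zeros n p).card := by
    unfold EZ
    convert card_codes hp hq hpq (hits n p ∪ zeros n p)
  have h2 := card_hits (p := p) h3
  have h5 := card_zeros (n := n) (p := p) (by omega)
  have h4 : (hits n p ∪ zeros n p).card ≤ (hits n p).card + p ^ (n - n.totient) :=
    (Finset.card_union_le _ _).trans (by omega)
  calc n * (EZ p q n hp).card
      ≤ n * (q ^ n * ((hits n p).card + p ^ (n - n.totient))) := by gcongr; exact h1.trans (by gcongr)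
    _ = q ^ n * (n * (hits n p).card) + n * (q ^ n * p ^ (n - n.totient)) := by ring
    _ ≤ q ^ n * p ^ n + n * (q ^ n * p ^ (n - n.totient)) := by gcongr; omega
    _ = (p * q) ^ n + n * (q ^ n * p ^ (n - n.totient)) := by rw [mul_pow, mul_comm (q ^ n)]

/-- **bounded gaps** -/
theorem gap_zero {p q n : ℕ} (hp : 0 < p) (hq : 0 < q) (h3 : 3 ≤ n) {x : ℕ → ℝ}
    (hx : ∀ k, (q : ℝ) * x (k + 1) = p * x k) (k₀ : ℕ) :
    ∃ k, k₀ ≤ k ∧ k ≤ k₀ + p ^ n ∧ code p q n (x k) ∈ EZ p q n hp := by
  classical
  obtain ⟨k, h1, h2, h4⟩ := bounded_gap_zero h3 (seq p q n x) (fun i => seq_lt hp x i) k₀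
  refine ⟨k, h1, h2, ?_⟩
  unfold EZ
  refine Finset.mem_filter.2 ⟨Finset.mem_range.2 (code_lt hp hq n _), ?_⟩
  rw [Finset.mem_union]
  rcases h4 with h4 | h4
  · exact Or.inl ((hit_iff hp hq hx k).1 h4)
  · refine Or.inr ((mem_zeros _).2 ?_)
    rw [← h4]
    refine Psi_congr fun j hj => ?_
    rw [ext_word hp _ hj]
    exact (seq_eq_letter hp hq hx k hj).symm

/-- a lower bound for the totient of an odd number -/
theorem totient_odd : ∀ n : ℕ, Odd n → n ≤ n.totient ^ 2 := by
  intro n
  induction n using Nat.recOnPosPrimePosCoprime with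
  | prime_pow p k hp hk =>
    intro ho
    have hp3 : 3 ≤ p := by
      rcases hp.eq_two_or_odd' with h | h
      · exfalso
        subst h
        rw [Nat.odd_pow_iff hk.ne'] at ho
        exact absurd ho (by decide)
      · have := hp.two_le
        rcases Nat.lt_or_ge 2 p with h' | h'
        · exact h'
        · have : p = 2 := by omega
          subst this
          exact absurd h (by decide)
    obtain ⟨k, rfl⟩ : ∃ j, k = j + 1 := ⟨k - 1, by omega⟩
    rw [Nat.totient_prime_pow_succ hp, mul_pow, ← pow_mul, pow_succ]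
    obtain ⟨r, rfl⟩ : ∃ r, p = r + 1 := ⟨p - 1, by omega⟩
    rw [Nat.add_sub_cancel]
    refine Nat.mul_le_mul ?_ ?_
    · exact Nat.pow_le_pow_right (by omega) (by omega)
    · nlinarith
  | zero =>
    intro ho
    exact absurd ho (by decide)
  | one =>
    intro _
    simp
  | coprime a b ha hb hab iha ihb =>
    intro ho
    rw [Nat.odd_mul] at ho
    rw [Nat.totient_mul hab, mul_pow]
    exact Nat.mul_le_mul (iha ho.1) (ihb ho.2)

/-- a lower bound for the totient -/
theorem totient_lower (n : ℕ) : n ≤ 2 * n.totient ^ 2 := by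
  rcases Nat.eq_zero_or_pos n with rfl | hn
  · simp
  obtain ⟨k, m, hm, rfl⟩ := Nat.exists_eq_two_pow_mul_odd hn.ne'
  have h1 := totient_odd m hm
  have h2 : Nat.Coprime (2 ^ k) m := by
    refine Nat.Coprime.pow_left k ?_
    rwa [Nat.coprime_two_left]
  rw [Nat.totient_mul h2, mul_pow]
  have h3 : 2 ^ k ≤ 2 * (2 ^ k).totient ^ 2 := by
    rcases Nat.eq_zero_or_pos k with rfl | hk
    · simp
    · obtain ⟨j, rfl⟩ : ∃ j, k = j + 1 := ⟨k - 1, by omega⟩
      rw [Nat.totient_prime_pow_succ Nat.prime_two, mul_pow, ← pow_mul]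
      rw [pow_succ, mul_comm]
      refine Nat.mul_le_mul le_rfl ?_
      rw [show (2 - 1) ^ 2 = 1 by norm_num, mul_one]
      exact Nat.pow_le_pow_right (by omega) (by omega)
  calc 2 ^ k * m ≤ (2 * (2 ^ k).totient ^ 2) * m.totient ^ 2 := Nat.mul_le_mul h3 h1
    _ = _ := by ring

end Pool.Agent.Helper17.ZTH
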