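import Pool.Agent.Helper17.ZTH.Count

/-!
# The letters of a base `p q` word
-/

set_option autoImplicit false

open Finset

namespace Pool.Agent.Helper17.ZTH

/-- the letters -/
def letter (p q n e : ℕ) : ℕ → ℕ := fun j => e / (q ^ (j + 1) * p ^ (n - 1 - j)) % p

theorem letter_lt {p : ℕ} (hp : 0 < p) (q n e j : ℕ) : letter p q n e j < p := Nat.mod_lt _ hp

theorem modEq_step {p q n : ℕ} (hp : 0 < p) (hq : 0 < q) (hpq : Nat.Coprime p q) {e e' : ℕ}
    (h0 : (e : ℤ) ≡ e' [ZMOD (q : ℤ) ^ n]) (hl : ∀ j < n, letter p q n e j = letter p q n e' j) :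
    ∀ t ≤ n, (e : ℤ) ≡ e' [ZMOD (q : ℤ) ^ n * (p : ℤ) ^ t] := by
  intro t
  induction t with
  | zero =>
    intro _
    rwa [pow_zero, mul_one]
  | succ t ih =>
    intro ht
    obtain ⟨s, hs⟩ := (ih (by omega)).dvd
    have h1 := hl (n - 1 - t) (by omega)
    unfold letter at h1
    rw [show n - 1 - t + 1 = n - t by omega, show n - 1 - (n - 1 - t) = t by omega] at h1
    have h2 : ((e / (q ^ (n - t) * p ^ t) : ℕ) : ℤ) % p = ((e' / (q ^ (n - t) * p ^ t) : ℕ) : ℤ) % p := by
      exact_mod_cast h1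
    push_cast at h2
    set M : ℤ := (q : ℤ) ^ (n - t) * (p : ℤ) ^ t with hM
    have hM0 : M ≠ 0 := by positivity
    have h3 : (e' : ℤ) = e + M * ((q : ℤ) ^ t * s) := by
      have e1 : (q : ℤ) ^ n = (q : ℤ) ^ (n - t) * (q : ℤ) ^ t := by
        rw [← pow_add]
        congr 1
        omega
      rw [hM]
      rw [e1] at hs
      linear_combination hs
    rw [h3, Int.add_mul_ediv_left _ _ hM0] at h2
    have h4 : (p : ℤ) ∣ (q : ℤ) ^ t * s := by
      have e1 : ((e : ℤ) / M + (q : ℤ) ^ t * s) ≡ (e : ℤ) / M [ZMOD p] := h2.symm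
      have e2 := e1.symm.dvd
      rwa [add_sub_cancel_left] at e2
    have h5 : (p : ℤ) ∣ s := by
      refine IsCoprime.dvd_of_dvd_mul_left ?_ h4
      exact (Nat.isCoprime_iff_coprime.2 hpq).pow_right
    obtain ⟨r, hr⟩ := h5
    refine (Int.modEq_iff_dvd).2 ⟨r, ?_⟩
    rw [hs, hr]
    ring

theorem eq_of_letters {p q n : ℕ} (hp : 0 < p) (hq : 0 < q) (hpq : Nat.Coprime p q) {e e' : ℕ}
    (he : e < (p * q) ^ n) (he' : e' < (p * q) ^ n) (h0 : e % q ^ n = e' % q ^ n)
    (hl : ∀ j < n, letter p q n e j = letter p q n e' j) : e = e' := by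
  have h1 : (e : ℤ) ≡ e' [ZMOD (q : ℤ) ^ n] := by
    have : (e : ℤ) % ((q ^ n : ℕ) : ℤ) = (e' : ℤ) % ((q ^ n : ℕ) : ℤ) := by exact_mod_cast h0
    push_cast at this
    exact this
  have h2 := modEq_step hp hq hpq h1 hl n le_rfl
  have h3 : e ≡ e' [MOD q ^ n * p ^ n] := by
    rw [← Int.natCast_modEq_iff]
    push_cast
    exact h2
  have h4 : q ^ n * p ^ n = (p * q) ^ n := by rw [mul_pow, mul_comm]
  rw [h4] at h3
  have := h3
  unfold Nat.ModEq at this
  rwa [Nat.mod_eq_of_lt he, Nat.mod_eq_of_lt he'] at this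

/-- the word of letters -/
def word (p q n : ℕ) (hp : 0 < p) (e : ℕ) : Fin n → Fin p := fun j =>
  ⟨letter p q n e j, letter_lt hp q n e j⟩

theorem ext_word {p q n : ℕ} (hp : 0 < p) (e : ℕ) {j : ℕ} (hj : j < n) :
    ext (word p q n hp e) j = letter p q n e j := by
  rw [ext_lt _ hj, word]

/-- the number of codes with letters in a set of words -/
theorem card_codes {p q n : ℕ} (hp : 0 < p) (hq : 0 < q) (hpq : Nat.Coprime p q)
    (S : Finset (Fin n → Fin p)) :
    ((range ((p * q) ^ n)).filter fun e => word p q n hp e ∈ S).card ≤ q ^ n * S.card := by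
  rw [← Finset.card_range (q ^ n), ← Finset.card_product]
  refine Finset.card_le_card_of_injOn (fun e => (e % q ^ n, word p q n hp e)) ?_ ?_
  · intro e he
    have h1 := Finset.mem_filter.1 (Finset.mem_coe.1 he)
    refine Finset.mem_coe.2 (Finset.mem_product.2 ⟨?_, h1.2⟩)
    exact Finset.mem_range.2 (Nat.mod_lt _ (pow_pos hq n))
  · intro e he e' he' hee
    have h1 := Finset.mem_filter.1 (Finset.mem_coe.1 he)
    have h1' := Finset.mem_filter.1 (Finset.mem_coe.1 he')
    have h2 : e % q ^ n = e' % q ^ n := congrArg Prod.fst hee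
    have h3 : word p q n hp e = word p q n hp e' := congrArg Prod.snd hee
    refine eq_of_letters hp hq hpq (Finset.mem_range.1 h1.1) (Finset.mem_range.1 h1'.1) h2 ?_
    intro j hj
    have := congrFun h3 ⟨j, hj⟩
    simpa [word, Fin.ext_iff] using this

/-- the codes with a hit -/
noncomputable def EE (p q n : ℕ) (hp : 0 < p) : Finset ℕ := by
  classical
  exact (range ((p * q) ^ n)).filter fun e => word p q n hp e ∈ hits n p

/-- the codes with a hit or with a constant word of letters -/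
noncomputable def EC (p q n : ℕ) (hp : 0 < p) : Finset ℕ := by
  classical
  exact (range ((p * q) ^ n)).filter fun e => word p q n hp e ∈ hits n p ∪ consts n p

theorem card_EE {p q n : ℕ} (hp : 0 < p) (hq : 0 < q) (hpq : Nat.Coprime p q) (h3 : 3 ≤ n) :
    n * (EE p q n hp).card + p * q ^ n ≤ (p * q) ^ n := by
  have h1 : (EE p q n hp).card ≤ q ^ n * (hits n p).card := by
    unfold EE
    convert card_codes hp hq hpq (hits n p)
  have h2 := card_hits (p := p) h3
  calc n * (EE p q n hp).card + p * q ^ n ≤ n * (q ^ n * (hits n p).card) + p * q ^ n := by gcongr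
    _ = q ^ n * (n * (hits n p).card + p) := by ring
    _ ≤ q ^ n * p ^ n := by gcongr
    _ = (p * q) ^ n := by rw [mul_pow, mul_comm]

theorem card_EC {p q n : ℕ} (hp : 0 < p) (hq : 0 < q) (hpq : Nat.Coprime p q) (h3 : 3 ≤ n) :
    n * (EC p q n hp).card ≤ (p * q) ^ n + (n - 1) * p * q ^ n := by
  have h1 : (EC p q n hp).card ≤ q ^ n * (hits n p ∪ consts n p).card := by
    unfold EC
    convert card_codes hp hq hpq (hits n p ∪ consts n p)
  have h2 := card_hits (p := p) h3
  have h4 : (hits n p ∪ consts n p).card ≤ (hits n p).card + p := by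
    refine (Finset.card_union_le _ _).trans ?_
    rw [card_consts (by omega)]
  obtain ⟨m, rfl⟩ : ∃ m, n = m + 1 := ⟨n - 1, by omega⟩
  rw [Nat.add_sub_cancel]
  calc (m + 1) * (EC p q (m + 1) hp).card
      ≤ (m + 1) * (q ^ (m + 1) * ((hits (m + 1) p).card + p)) := by gcongr; exact h1.trans (by gcongr)
    _ = q ^ (m + 1) * ((m + 1) * (hits (m + 1) p).card + p) + m * p * q ^ (m + 1) := by ring
    _ ≤ q ^ (m + 1) * p ^ (m + 1) + m * p * q ^ (m + 1) := by gcongr
    _ = (p * q) ^ (m + 1) + m * p * q ^ (m + 1) := by rw [mul_pow, mul_comm (q ^ (m + 1))]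

end Pool.Agent.Helper17.ZTH
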