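import Pool.Agent.Helper17.ZTH.Unavoid

/-!
# The limit
-/

set_option autoImplicit false

open Finset Filter Topology

namespace Pool.Agent.Helper17.ZTH

theorem log_div : Tendsto (fun n : ℕ => Real.log n / n) atTop (𝓝 0) := by
  have h := (Real.tendsto_pow_log_div_mul_add_atTop 1 0 1 one_ne_zero).comp
    (tendsto_natCast_atTop_atTop (R := ℝ))
  refine h.congr fun n => ?_
  simp

theorem one_div_nat : Tendsto (fun n : ℕ => (1 : ℝ) / n) atTop (𝓝 0) := tendsto_one_div_atTop_nhds_zero_nat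

/-- the upper bound for the exponent -/
noncomputable def aa (n : ℕ) : ℝ := 1 + (Real.log n + n * Real.log 6) / Real.log 3

/-- the lower bound for the exponent -/
noncomputable def bb (n : ℕ) : ℝ := (n * Real.log 6 - 2 * Real.log n) / Real.log 3 - 2

theorem log3 : 0 < Real.log 3 := Real.log_pos (by norm_num)
theorem log6 : 0 < Real.log 6 := Real.log_pos (by norm_num)

theorem aa_lim : Tendsto (fun n : ℕ => (n : ℝ) / aa n) atTop (𝓝 (Real.log 3 / Real.log 6)) := by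
  have h1 : Tendsto (fun n : ℕ => aa n / n) atTop (𝓝 (Real.log 6 / Real.log 3)) := by
    have h2 : Tendsto (fun n : ℕ => (1 : ℝ) / n + (Real.log n / n + Real.log 6) / Real.log 3) atTop
        (𝓝 (0 + (0 + Real.log 6) / Real.log 3)) :=
      one_div_nat.add ((log_div.add tendsto_const_nhds).div_const _)
    rw [zero_add, zero_add] at h2
    refine h2.congr' ?_
    filter_upwards [eventually_gt_atTop 0] with n hn
    have hn0 : (n : ℝ) ≠ 0 := by positivity
    unfold aa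
    have := log3.ne'
    field_simp
  have h3 := h1.inv₀ (div_pos log6 log3).ne'
  rw [inv_div] at h3
  exact h3.congr fun n => by rw [inv_div]

theorem bb_lim' : Tendsto (fun n : ℕ => bb n / n) atTop (𝓝 (Real.log 6 / Real.log 3)) := by
  have h2 : Tendsto (fun n : ℕ => (Real.log 6 - 2 * (Real.log n / n)) / Real.log 3 -
      2 * ((1 : ℝ) / n)) atTop (𝓝 ((Real.log 6 - 2 * 0) / Real.log 3 - 2 * 0)) :=
    ((tendsto_const_nhds.sub (log_div.const_mul 2)).div_const _).sub (one_div_nat.const_mul 2)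
  rw [mul_zero, sub_zero, sub_zero] at h2
  refine h2.congr' ?_
  filter_upwards [eventually_gt_atTop 0] with n hn
  have hn0 : (n : ℝ) ≠ 0 := by positivity
  unfold bb
  have := log3.ne'
  field_simp

theorem bb_lim : Tendsto (fun n : ℕ => (n : ℝ) / bb n) atTop (𝓝 (Real.log 3 / Real.log 6)) := by
  have h3 := bb_lim'.inv₀ (div_pos log6 log3).ne'
  rw [inv_div] at h3
  exact h3.congr fun n => by rw [inv_div]

theorem bb_pos : ∀ᶠ n : ℕ in atTop, 0 < bb n := by
  have h := bb_lim'.eventually (lt_mem_nhds (div_pos log6 log3))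
  filter_upwards [h, eventually_gt_atTop 0] with n hn hn0
  have : (0 : ℝ) < n := by positivity
  exact (div_pos_iff_of_pos_right this).1 hn

theorem lower_lim : Tendsto (fun n : ℕ => (n : ℝ) / aa n * (1 / (1 + 3 * (1 / n)))) atTop
    (𝓝 (Real.log 3 / Real.log 6)) := by
  have h1 : Tendsto (fun n : ℕ => (1 : ℝ) / (1 + 3 * (1 / n))) atTop (𝓝 (1 / (1 + 3 * 0))) :=
    tendsto_const_nhds.div (tendsto_const_nhds.add (one_div_nat.const_mul 3)) (by norm_num)
  have h2 := aa_lim.mul h1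
  rwa [mul_zero, add_zero, div_one, mul_one] at h2

/-- **the lower estimate** -/
theorem lower_est {n : ℕ} (hn : 0 < n) :
    (n : ℝ) / aa n * (1 / (1 + 3 * (1 / n))) ≤ (n : ℝ) * u n / 6 ^ n := by
  obtain ⟨N, hN⟩ : ∃ N, N = Nat.clog 3 (n * 6 ^ n) := ⟨_, rfl⟩
  have h6 : 1 < n * 6 ^ n := by
    have : 6 ^ 1 ≤ 6 ^ n := Nat.pow_le_pow_right (by norm_num) hn
    nlinarith
  have hN0 : 0 < N := by rw [hN]; exact Nat.clog_pos (by norm_num) h6
  have h1 : n * 6 ^ n ≤ 3 ^ N := by rw [hN]; exact Nat.le_pow_clog (by norm_num) _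
  have h2 : 3 ^ (N - 1) < n * 6 ^ n := by
    rw [hN]
    exact Nat.pow_pred_clog_lt_self (by norm_num) h6
  have hNa : (N : ℝ) ≤ aa n := by
    have h3 : ((3 : ℝ) ^ (N - 1)) ≤ n * 6 ^ n := by exact_mod_cast h2.le
    have h4 := Real.log_le_log (by positivity) h3
    rw [Real.log_pow, Real.log_mul (by positivity) (by positivity), Real.log_pow,
      Nat.cast_sub hN0] at h4
    push_cast at h4
    unfold aa
    rw [← sub_le_iff_le_add', le_div_iff₀ log3]
    exact h4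
  obtain ⟨m, hm⟩ : ∃ m, m = 3 ^ N - 2 ^ N := ⟨_, rfl⟩
  have h5 : n * 6 ^ n ≤ 3 * m := by
    obtain ⟨k, rfl⟩ : ∃ k, N = k + 1 := ⟨N - 1, by omega⟩
    have e1 : 2 ^ k ≤ 3 ^ k := Nat.pow_le_pow_left (by norm_num) k
    have e2 : (3 : ℕ) ^ (k + 1) = 3 ^ k * 3 := pow_succ _ _
    have e3 : (2 : ℕ) ^ (k + 1) = 2 ^ k * 2 := pow_succ _ _
    omega
  have hlow := u_lower n hN0
  rw [← hm] at hlow
  have hlow' : (m : ℝ) ≤ N * (u n * ((m : ℝ) / 6 ^ n + 1)) := by
    have e1 : ((m / 6 ^ n : ℕ) : ℝ) ≤ (m : ℝ) / 6 ^ n := by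
      have := Nat.cast_div_le (α := ℝ) (m := m) (n := 6 ^ n)
      push_cast at this
      exact this
    calc (m : ℝ) ≤ ((N * (u n * (m / 6 ^ n + 1)) : ℕ) : ℝ) := by exact_mod_cast hlow
      _ = N * (u n * (((m / 6 ^ n : ℕ) : ℝ) + 1)) := by push_cast; ring
      _ ≤ _ := by gcongr
  have hnr : (0 : ℝ) < n := by positivity
  have hNr : (0 : ℝ) < N := by positivity
  have h6r : (0 : ℝ) < 6 ^ n := by positivity
  have h5' : (n : ℝ) * 6 ^ n ≤ 3 * m := by exact_mod_cast h5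
  have hmr : (0 : ℝ) < m := by nlinarith [mul_pos hnr h6r]
  have hA : (n : ℝ) / aa n ≤ n / N := by gcongr
  have hB : (1 : ℝ) / (1 + 3 * (1 / n)) ≤ m / (m + 6 ^ n) := by
    rw [div_le_div_iff₀ (by positivity) (by positivity)]
    have e1 : (3 : ℝ) * (1 / n) * m = 3 * m / n := by ring
    have e2 : (6 : ℝ) ^ n ≤ 3 * m / n := by
      rw [le_div_iff₀ hnr]
      linarith
    nlinarith
  have hC : (n : ℝ) / N * (m / (m + 6 ^ n)) ≤ n * u n / 6 ^ n := by
    rw [div_mul_div_comm, div_le_div_iff₀ (by positivity) h6r]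
    have e1 : (m : ℝ) * 6 ^ n ≤ N * u n * (m + 6 ^ n) := by
      have : (N : ℝ) * (u n * ((m : ℝ) / 6 ^ n + 1)) * 6 ^ n = N * u n * (m + 6 ^ n) := by
        field_simp
      rw [← this]
      gcongr
    calc (n : ℝ) * m * 6 ^ n = n * (m * 6 ^ n) := by ring
      _ ≤ n * (N * u n * (m + 6 ^ n)) := by gcongr
      _ = _ := by ring
  refine le_trans ?_ hC
  have : (0 : ℝ) ≤ 1 / (1 + 3 * (1 / n)) := by positivity
  exact mul_le_mul hA hB this (by positivity)

theorem two_pow_ge {n : ℕ} (hn : 8 ≤ n) : 3 * n ^ 2 ≤ 2 ^ n := by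
  induction n, hn using Nat.le_induction with
  | base => norm_num
  | succ n hn ih =>
    rw [pow_succ 2 n]
    nlinarith

/-- the choice of the fine length -/
theorem choice {n : ℕ} (hn : 8 ≤ n) : ∃ N : ℕ, n ≤ N ∧ n ^ 2 * 3 ^ (N + 1) ≤ 6 ^ n ∧ bb n ≤ N := by
  obtain ⟨M, hM⟩ : ∃ M, M = 6 ^ n / n ^ 2 := ⟨_, rfl⟩
  have hn2 : 0 < n ^ 2 := by positivity
  have h1 : 3 ^ (n + 1) ≤ M := by
    rw [hM, Nat.le_div_iff_mul_le hn2, pow_succ]
    have := two_pow_ge hn
    calc 3 ^ n * 3 * n ^ 2 = 3 ^ n * (3 * n ^ 2) := by ring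
      _ ≤ 3 ^ n * 2 ^ n := by gcongr
      _ = 6 ^ n := by rw [← mul_pow]; norm_num
  have hM0 : M ≠ 0 := by
    have : 0 < 3 ^ (n + 1) := by positivity
    omega
  have h2 : n + 1 ≤ Nat.log 3 M := Nat.le_log_of_pow_le (by norm_num) h1
  obtain ⟨N, hN⟩ : ∃ N, Nat.log 3 M = N + 1 := ⟨Nat.log 3 M - 1, by omega⟩
  have h3 : 3 ^ (N + 1) ≤ M := by rw [← hN]; exact Nat.pow_log_le_self 3 hM0
  have h4 : M < 3 ^ (N + 2) := by
    have := Nat.lt_pow_succ_log_self (b := 3) (by norm_num) M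
    rwa [hN] at this
  refine ⟨N, by omega, ?_, ?_⟩
  · calc n ^ 2 * 3 ^ (N + 1) ≤ n ^ 2 * M := by gcongr
      _ ≤ 6 ^ n := by rw [hM]; exact Nat.mul_div_le _ _
  · have h5 : 6 ^ n < n ^ 2 * 3 ^ (N + 2) := by
      calc 6 ^ n < n ^ 2 * (M + 1) := by rw [hM]; exact Nat.lt_mul_div_succ _ hn2
        _ ≤ _ := by gcongr; omega
    have h6 : (6 : ℝ) ^ n ≤ n ^ 2 * 3 ^ (N + 2) := by exact_mod_cast h5.le
    have h7 := Real.log_le_log (by positivity) h6
    rw [Real.log_mul (by positivity) (by positivity), Real.log_pow, Real.log_pow, Real.log_pow] at h7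
    push_cast at h7
    unfold bb
    rw [sub_le_iff_le_add, div_le_iff₀ log3]
    linarith

/-- **the limit** -/
theorem limit : Tendsto (fun n : ℕ => (n : ℝ) * u n / 6 ^ n) atTop
    (𝓝 (Real.log 3 / Real.log 6)) := by
  have hch : ∀ n : ℕ, ∃ N : ℕ, 8 ≤ n → n ≤ N ∧ n ^ 2 * 3 ^ (N + 1) ≤ 6 ^ n ∧ bb n ≤ N := by
    intro n
    by_cases hn : 8 ≤ n
    · obtain ⟨N, h⟩ := choice hn
      exact ⟨N, fun _ => h⟩
    · exact ⟨0, fun h => absurd h hn⟩
  choose NN hNN using hch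
  have htot : Tendsto (fun n => (NN n).totient) atTop atTop := by
    rw [tendsto_atTop]
    intro b
    filter_upwards [eventually_ge_atTop (8 + 2 * b ^ 2)] with n hn
    by_contra hcon
    push Not at hcon
    have h1 := (hNN n (by omega)).1
    have h2 := totient_lower (NN n)
    have h3 : (NN n).totient ^ 2 ≤ b ^ 2 := Nat.pow_le_pow_left hcon.le 2
    omega
  have hsq : Tendsto (fun n : ℕ => 2 * (((NN n).totient : ℝ) ^ 2 / 3 ^ (NN n).totient)) atTop
      (𝓝 0) := by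
    have h1 := (tendsto_pow_const_div_const_pow_of_one_lt 2 (r := (3 : ℝ)) (by norm_num)).comp htot
    have h2 := h1.const_mul 2
    rw [mul_zero] at h2
    exact h2
  have hup : Tendsto (fun n : ℕ => (n : ℝ) / bb n + 2 * (((NN n).totient : ℝ) ^ 2 /
      3 ^ (NN n).totient) + 1 / n) atTop (𝓝 (Real.log 3 / Real.log 6)) := by
    have := (bb_lim.add hsq).add one_div_nat
    rwa [add_zero, add_zero] at this
  refine tendsto_of_tendsto_of_tendsto_of_le_of_le' lower_lim hup ?_ ?_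
  · filter_upwards [eventually_gt_atTop 0] with n hn
    exact lower_est hn
  · filter_upwards [eventually_ge_atTop 8, bb_pos] with n hn hb
    obtain ⟨h1, h2, h3⟩ := hNN n hn
    obtain ⟨N, hN⟩ : ∃ N, N = NN n := ⟨_, rfl⟩
    rw [← hN] at h1 h2 h3 ⊢
    have h4 := u_upper (n := n) (N := N) (by omega) h1
    have h6r : (0 : ℝ) < 6 ^ n := by positivity
    have hnr : (0 : ℝ) < n := by positivity
    have hNr : (0 : ℝ) < N := lt_of_lt_of_le hb h3
    have h5 : (n : ℝ) * u n / 6 ^ n ≤ n / N + n / 3 ^ N.totient + n * 3 ^ (N + 1) / 6 ^ n := by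
      rw [div_le_iff₀ h6r]
      calc (n : ℝ) * u n ≤ n * (6 ^ n / N + 6 ^ n / 3 ^ N.totient + 3 ^ (N + 1)) := by gcongr
        _ = _ := by field_simp
    have e1 : (n : ℝ) / N ≤ n / bb n := by gcongr
    have e2 : (n : ℝ) / 3 ^ N.totient ≤ 2 * ((N.totient : ℝ) ^ 2 / 3 ^ N.totient) := by
      rw [← mul_div_assoc]
      have : (n : ℝ) ≤ 2 * (N.totient : ℝ) ^ 2 := by
        exact_mod_cast h1.trans (totient_lower N)
      gcongr
    have e3 : (n : ℝ) * 3 ^ (N + 1) / 6 ^ n ≤ 1 / n := by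
      rw [div_le_div_iff₀ h6r hnr]
      have : (n : ℝ) ^ 2 * 3 ^ (N + 1) ≤ 6 ^ n := by exact_mod_cast h2
      nlinarith
    linarith

end Pool.Agent.Helper17.ZTH
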