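import Pool.Agent.Helper17.ZTH.Letters

/-!
# Orbits of multiplication by `p / q` modulo one
-/

set_option autoImplicit false

open Finset

namespace Pool.Agent.Helper17.ZTH

/-- the sequence of letters of an orbit -/
noncomputable def seq (p q n : ℕ) (x : ℕ → ℝ) (k : ℕ) : ℕ :=
  (⌊(p : ℝ) * (q : ℝ) ^ (n - 1) * x k⌋ % (p : ℤ)).toNat

/-- the code of a cell of an orbit -/
noncomputable def code (p q n : ℕ) (y : ℝ) : ℕ := ⌊((p * q : ℕ) : ℝ) ^ n * Int.fract y⌋₊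

theorem code_lt {p q : ℕ} (hp : 0 < p) (hq : 0 < q) (n : ℕ) (y : ℝ) :
    code p q n y < (p * q) ^ n := by
  unfold code
  have h0 : (0 : ℝ) < ((p * q : ℕ) : ℝ) ^ n := by positivity
  rw [Nat.floor_lt (mul_nonneg h0.le (Int.fract_nonneg y))]
  push_cast at h0 ⊢
  calc ((p : ℝ) * q) ^ n * Int.fract y < ((p : ℝ) * q) ^ n * 1 :=
        mul_lt_mul_of_pos_left (Int.fract_lt_one y) h0
    _ = _ := mul_one _

theorem code_floor {p q : ℕ} (n : ℕ) (y : ℝ) :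
    (code p q n y : ℤ) = ⌊((p * q : ℕ) : ℝ) ^ n * y⌋ - ((p * q : ℕ) : ℤ) ^ n * ⌊y⌋ := by
  unfold code
  rw [Int.natCast_floor_eq_floor (mul_nonneg (by positivity) (Int.fract_nonneg y))]
  rw [← Int.floor_sub_intCast]
  congr 1
  rw [Int.fract]
  push_cast
  ring

theorem seq_lt {p q n : ℕ} (hp : 0 < p) (x : ℕ → ℝ) (k : ℕ) : seq p q n x k < p := by
  unfold seq
  have h1 : (⌊(p : ℝ) * (q : ℝ) ^ (n - 1) * x k⌋ % (p : ℤ)) < p :=
    Int.emod_lt_of_pos _ (by exact_mod_cast hp)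
  have h2 : 0 ≤ (⌊(p : ℝ) * (q : ℝ) ^ (n - 1) * x k⌋ % (p : ℤ)) :=
    Int.emod_nonneg _ (by exact_mod_cast hp.ne')
  omega

theorem pow_orbit {p q : ℕ} {x : ℕ → ℝ} (hx : ∀ k, (q : ℝ) * x (k + 1) = p * x k) (k j : ℕ) :
    (q : ℝ) ^ j * x (k + j) = (p : ℝ) ^ j * x k := by
  induction j with
  | zero => simp
  | succ j ih =>
    rw [pow_succ, pow_succ, show k + (j + 1) = k + j + 1 by ring, mul_assoc, hx]
    linear_combination (p : ℝ) * ih

/-- **the letters of an orbit are read from the cell** -/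
theorem seq_eq_letter {p q n : ℕ} (hp : 0 < p) (hq : 0 < q) {x : ℕ → ℝ}
    (hx : ∀ k, (q : ℝ) * x (k + 1) = p * x k) (k : ℕ) {j : ℕ} (hj : j < n) :
    seq p q n x (k + j) = letter p q n (code p q n (x k)) j := by
  obtain ⟨M, hM⟩ : ∃ M : ℕ, M = q ^ (j + 1) * p ^ (n - 1 - j) := ⟨_, rfl⟩
  have hM0 : 0 < M := by rw [hM]; positivity
  obtain ⟨i, hi⟩ : ∃ i, n = j + 1 + i := ⟨n - 1 - j, by omega⟩
  have hni : n - 1 - j = i := by omega
  have hn1 : n - 1 = j + i := by omega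
  rw [hni] at hM
  have hMR : (M : ℝ) = (q : ℝ) ^ (j + 1) * (p : ℝ) ^ i := by rw [hM]; push_cast; ring
  have hpr : (p : ℝ) ≠ 0 := by positivity
  have hqr : (q : ℝ) ≠ 0 := by positivity
  -- the floor
  have e1 : (p : ℝ) * (q : ℝ) ^ (n - 1) * x (k + j) = ((p * q : ℕ) : ℝ) ^ n * x k / (M : ℕ) := by
    rw [eq_div_iff (by positivity), hMR, hn1, hi]
    have := pow_orbit hx k j
    push_cast
    rw [mul_pow, pow_add, pow_add (p : ℝ), pow_add (q : ℝ) (j + 1), pow_succ (p : ℝ) j,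
      pow_succ (q : ℝ) j]
    linear_combination (p : ℝ) * (q : ℝ) ^ i * (q : ℝ) ^ j * (q : ℝ) * (p : ℝ) ^ i * this
  have e2 : ⌊(p : ℝ) * (q : ℝ) ^ (n - 1) * x (k + j)⌋ = ⌊((p * q : ℕ) : ℝ) ^ n * x k⌋ / (M : ℤ) := by
    rw [e1, Int.floor_div_natCast]
  have e3 := code_floor (p := p) (q := q) n (x k)
  have e4 : ((p * q : ℕ) : ℤ) ^ n = (M : ℤ) * ((p : ℤ) * ((p : ℤ) ^ j * (q : ℤ) ^ i)) := by
    rw [hM, hi]
    push_cast
    ring
  have e5 : ⌊((p * q : ℕ) : ℝ) ^ n * x k⌋ = (code p q n (x k) : ℤ) +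
      (M : ℤ) * ((p : ℤ) * ((p : ℤ) ^ j * (q : ℤ) ^ i * ⌊x k⌋)) := by
    rw [e3, e4]
    ring
  unfold seq letter
  rw [e2, e5, Int.add_mul_ediv_left _ _ (by exact_mod_cast hM0.ne'), Int.add_mul_emod_self_left,
    hni, ← hM]
  norm_cast

theorem hit_iff {p q n : ℕ} (hp : 0 < p) (hq : 0 < q) {x : ℕ → ℝ}
    (hx : ∀ k, (q : ℝ) * x (k + 1) = p * x k) (k : ℕ) :
    Hit n (win (seq p q n x) k) ↔ word p q n hp (code p q n (x k)) ∈ hits n p := by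
  rw [mem_hits]
  refine Hit_congr fun j hj => ?_
  rw [ext_word hp _ hj]
  exact seq_eq_letter hp hq hx k hj

/-- **bounded gaps** -/
theorem gap {p q n : ℕ} (hp : 0 < p) (hq : 0 < q) (hn : n.Prime) (h3 : 3 ≤ n) {x : ℕ → ℝ}
    (hx : ∀ k, (q : ℝ) * x (k + 1) = p * x k) (k₀ : ℕ) :
    ∃ k, k₀ ≤ k ∧ k ≤ k₀ + p ^ n ∧ code p q n (x k) ∈ EC p q n hp := by
  classical
  obtain ⟨k, h1, h2, h4⟩ := bounded_gap hn h3 (seq p q n x) (fun i => seq_lt hp x i) k₀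
  refine ⟨k, h1, h2, ?_⟩
  unfold EC
  refine Finset.mem_filter.2 ⟨Finset.mem_range.2 (code_lt hp hq n _), ?_⟩
  rw [Finset.mem_union]
  rcases h4 with h4 | h4
  · exact Or.inl ((hit_iff hp hq hx k).1 h4)
  · refine Or.inr (Finset.mem_image.2 ⟨⟨seq p q n x (k + (n - 1)), seq_lt hp x _⟩,
      Finset.mem_univ _, ?_⟩)
    funext j
    have h5 := h4 j j.2
    unfold win at h5
    rw [seq_eq_letter hp hq hx k j.2] at h5
    simp only [word, Fin.ext_iff]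
    exact h5.symm

/-- **infinitely many hits** -/
theorem infinite_codes {p q n : ℕ} (hp : 0 < p) (hq : 0 < q) (hn : n.Prime) (h3 : 3 ≤ n)
    {x : ℕ → ℝ} (hx : ∀ k, (q : ℝ) * x (k + 1) = p * x k)
    (hconst : ∀ K, ∃ i, K ≤ i ∧ seq p q n x i ≠ seq p q n x K) :
    {k : ℕ | code p q n (x k) ∈ EE p q n hp}.Infinite := by
  classical
  refine (infinite_hits hn h3 (seq p q n x) (fun i => seq_lt hp x i) hconst).mono ?_
  intro k hk
  unfold EE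
  exact Finset.mem_filter.2 ⟨Finset.mem_range.2 (code_lt hp hq n _), (hit_iff hp hq hx k).1 hk⟩

end Pool.Agent.Helper17.ZTH
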