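import Pool.Agent.Helper17.ZTH.Words

/-!
# Periodic configurations
-/

set_option autoImplicit false

open Finset

namespace Pool.Agent.Helper17.ZTH

/-- the digits of the multiples by three -/
theorem digit_mul {m R : ℕ} (hm : 0 < m) :
    6 * ((3 * R) % m) / m = (3 * (6 * R / m)) % 6 + (3 * (6 * ((6 * R) % m) / m)) / 6 := by
  obtain ⟨c, hc⟩ : ∃ c, c = 3 * R / m := ⟨_, rfl⟩
  obtain ⟨ρ, hρ⟩ : ∃ ρ, ρ = (3 * R) % m := ⟨_, rfl⟩
  have h1 : 3 * R = m * c + ρ := by rw [hc, hρ, Nat.div_add_mod]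
  have hρm : ρ < m := by rw [hρ]; exact Nat.mod_lt _ hm
  obtain ⟨ε, hε⟩ : ∃ ε, ε = 2 * ρ / m := ⟨_, rfl⟩
  obtain ⟨R', hR'⟩ : ∃ R', R' = (2 * ρ) % m := ⟨_, rfl⟩
  have h2 : 2 * ρ = m * ε + R' := by rw [hε, hR', Nat.div_add_mod]
  have hR'm : R' < m := by rw [hR']; exact Nat.mod_lt _ hm
  have hε1 : ε < 2 := by
    rw [hε, Nat.div_lt_iff_lt_mul hm]
    linarith
  have h3 : 6 * R = m * (2 * c + ε) + R' := by
    have : 6 * R = 2 * (3 * R) := by ring
    rw [this, h1, mul_add 2, h2]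
    ring
  have h4 : 6 * R / m = 2 * c + ε := by
    rw [h3, Nat.mul_add_div hm, Nat.div_eq_of_lt hR'm, add_zero]
  have h5 : (6 * R) % m = R' := by
    rw [h3, Nat.mul_add_mod, Nat.mod_eq_of_lt hR'm]
  have h6 : 6 * ρ / m = 3 * ε + 3 * R' / m := by
    have : 6 * ρ = m * (3 * ε) + 3 * R' := by
      have : 6 * ρ = 3 * (2 * ρ) := by ring
      rw [this, h2]
      ring
    rw [this, Nat.mul_add_div hm]
  have h7 : 3 * (6 * R' / m) / 6 = 3 * R' / m := by
    rw [show 3 * (6 * R' / m) / 6 = (6 * R' / m) / 2 by omega, Nat.div_div_eq_div_mul,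
      show 6 * R' = (3 * R') * 2 by ring, Nat.mul_div_mul_right _ _ (by norm_num)]
  rw [← hρ, h4, h5, h6, h7]
  omega

/-- the periodic configuration of a residue -/
def per (m : ℕ) [NeZero m] (c : (ZMod m)ˣ) (k : ZMod m) : Conf := fun i =>
  ⟨6 * (((c ^ (i - 1) : (ZMod m)ˣ) : ZMod m) * k).val / m, by
    rw [Nat.div_lt_iff_lt_mul (NeZero.pos m)]
    have := ZMod.val_lt (((c ^ (i - 1) : (ZMod m)ˣ) : ZMod m) * k)
    omega⟩

theorem val_mul_nat {m : ℕ} [NeZero m] (a : ℕ) (r : ZMod m) :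
    ((a : ZMod m) * r).val = (a * r.val) % m := by
  rw [← ZMod.val_natCast m (a * r.val)]
  congr 1
  push_cast
  rw [ZMod.natCast_zmod_val]

theorem F3_per {m : ℕ} [NeZero m] {c : (ZMod m)ˣ} (hc : (c : ZMod m) = 6) (k : ZMod m) :
    F3 (per m c k) = per m c (3 * k) := by
  funext i
  obtain ⟨r, hr⟩ : ∃ r : ZMod m, r = ((c ^ (i - 1) : (ZMod m)ˣ) : ZMod m) * k := ⟨_, rfl⟩
  have h1 : ((c ^ (i + 1 - 1) : (ZMod m)ˣ) : ZMod m) * k = ((6 : ℕ) : ZMod m) * r := by
    rw [show i + 1 - 1 = 1 + (i - 1) by ring, zpow_add, zpow_one, Units.val_mul, hc, hr]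
    push_cast
    ring
  have h2 : ((c ^ (i - 1) : (ZMod m)ˣ) : ZMod m) * (3 * k) = ((3 : ℕ) : ZMod m) * r := by
    rw [hr]
    push_cast
    ring
  apply Fin.ext
  unfold F3 f per
  simp only
  rw [h1, h2, ← hr, val_mul_nat, val_mul_nat, digit_mul (NeZero.pos m)]

theorem shift_per {m : ℕ} [NeZero m] (c : (ZMod m)ˣ) (k : ZMod m) :
    (fun i => per m c k (i - 1)) = per m c (((c⁻¹ : (ZMod m)ˣ) : ZMod m) * k) := by
  funext i
  unfold per
  congr 4
  rw [zpow_sub, zpow_one, Units.val_mul, mul_assoc]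

theorem F_per {m : ℕ} [NeZero m] {c : (ZMod m)ˣ} (hc : (c : ZMod m) = 6) (k : ZMod m) :
    F (per m c k) = per m c ((9 * ((c⁻¹ : (ZMod m)ˣ) : ZMod m)) * k) := by
  unfold F
  rw [shift_per, F3_per hc, F3_per hc]
  congr 1
  ring

theorem iter_per {m : ℕ} [NeZero m] {c : (ZMod m)ˣ} (hc : (c : ZMod m) = 6) (k : ZMod m) (t : ℕ) :
    F^[t] (per m c k) = per m c ((9 * ((c⁻¹ : (ZMod m)ˣ) : ZMod m)) ^ t * k) := by
  induction t with
  | zero => simp
  | succ t ih =>
    rw [Function.iterate_succ_apply', ih, F_per hc]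
    congr 1
    ring

/-- the code of the window at one -/
theorem enc_per {m : ℕ} [NeZero m] {c : (ZMod m)ˣ} (hc : (c : ZMod m) = 6) (k : ZMod m) (n : ℕ) :
    enc (fun i : Fin n => per m c k (1 + ((i : ℕ) : ℤ))) = 6 ^ n * k.val / m := by
  have h1 : ∀ i : ℕ, (per m c k (1 + (i : ℤ)) : ℕ) = 6 * ((6 ^ i * k.val) % m) / m := by
    intro i
    unfold per
    dsimp only
    rw [add_sub_cancel_left, zpow_natCast, Units.val_pow_eq_pow_val, hc]
    have : ((6 : ZMod m) ^ i * k).val = (6 ^ i * k.val) % m := by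
      rw [← val_mul_nat]
      push_cast
      rfl
    rw [this]
  have hm : 0 < m := NeZero.pos m
  have key : ∀ n : ℕ, ∑ i ∈ range n, (6 * ((6 ^ i * k.val) % m) / m) * 6 ^ (n - 1 - i) =
      6 ^ n * k.val / m := by
    intro n
    induction n with
    | zero =>
      rw [Finset.sum_range_zero, pow_zero, one_mul, Nat.div_eq_of_lt (ZMod.val_lt k)]
    | succ n ih =>
      rw [Finset.sum_range_succ, Nat.add_sub_cancel, Nat.sub_self, pow_zero, mul_one]
      have e1 : ∑ i ∈ range n, (6 * ((6 ^ i * k.val) % m) / m) * 6 ^ (n - i) =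
          6 * ∑ i ∈ range n, (6 * ((6 ^ i * k.val) % m) / m) * 6 ^ (n - 1 - i) := by
        rw [Finset.mul_sum]
        refine Finset.sum_congr rfl fun j hj => ?_
        have := Finset.mem_range.1 hj
        rw [show n - j = (n - 1 - j) + 1 by omega, pow_succ]
        ring
      rw [e1, ih]
      have e2 : 6 ^ (n + 1) * k.val = m * (6 * (6 ^ n * k.val / m)) + 6 * ((6 ^ n * k.val) % m) := by
        have := Nat.div_add_mod (6 ^ n * k.val) m
        rw [pow_succ]
        calc 6 ^ n * 6 * k.val = 6 * (6 ^ n * k.val) := by ring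
          _ = 6 * (m * (6 ^ n * k.val / m) + (6 ^ n * k.val) % m) := by rw [this]
          _ = _ := by ring
      rw [e2, Nat.mul_add_div hm]
  rw [← key, enc, Finset.sum_range]
  exact Finset.sum_congr rfl fun i _ => by rw [h1]

/-- the number of residues with a given code -/
theorem card_code {m n e : ℕ} (S : Finset ℕ) (hS : ∀ K ∈ S, 6 ^ n * K / m = e) (hm : 0 < m) :
    S.card ≤ m / 6 ^ n + 1 := by
  obtain ⟨a, ha⟩ : ∃ a, a = (m * e + 6 ^ n - 1) / 6 ^ n := ⟨_, rfl⟩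
  have h6 : 0 < 6 ^ n := by positivity
  have h1 : m * e ≤ 6 ^ n * a := by
    have := Nat.div_add_mod (m * e + 6 ^ n - 1) (6 ^ n)
    have h2 := Nat.mod_lt (m * e + 6 ^ n - 1) h6
    rw [← ha] at this
    omega
  have h2 : m < 6 ^ n * (m / 6 ^ n + 1) := Nat.lt_mul_div_succ _ h6
  have : S ⊆ Finset.Ico a (a + (m / 6 ^ n + 1)) := by
    intro K hK
    have e1 := hS K hK
    have e2 : m * e ≤ 6 ^ n * K := by
      rw [← e1]
      exact Nat.mul_div_le _ _
    have e3 : 6 ^ n * K < m * (e + 1) := by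
      rw [← e1]
      exact Nat.lt_mul_div_succ _ hm
    rw [Finset.mem_Ico]
    constructor
    · rw [ha]
      rw [← Nat.lt_succ_iff, Nat.div_lt_iff_lt_mul h6, Nat.succ_mul, mul_comm K]
      omega
    · have : 6 ^ n * K < 6 ^ n * (a + (m / 6 ^ n + 1)) := by
        rw [mul_add (6 ^ n) a]
        rw [mul_add m e] at e3
        omega
      exact lt_of_mul_lt_mul_left this (Nat.zero_le _)
  refine (Finset.card_le_card this).trans ?_
  rw [Nat.card_Ico, Nat.add_sub_cancel_left]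

theorem coprime_six {N : ℕ} (hN : 0 < N) : Nat.Coprime 6 (3 ^ N - 2 ^ N) := by
  have hle : 2 ^ N ≤ 3 ^ N := Nat.pow_le_pow_left (by norm_num) N
  have h2 : Nat.Coprime 2 (3 ^ N - 2 ^ N) := by
    rw [Nat.coprime_two_left]
    refine Nat.Odd.sub_even hle (Odd.pow (by decide)) ?_
    exact (Nat.even_pow.2 ⟨by decide, hN.ne'⟩)
  have h3 : Nat.Coprime 3 (3 ^ N - 2 ^ N) := by
    rw [Nat.Prime.coprime_iff_not_dvd Nat.prime_three]
    intro h
    have h4 : 3 ∣ 3 ^ N := dvd_pow_self 3 hN.ne'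
    have h5 : 3 ∣ 2 ^ N := (Nat.dvd_sub_iff_right hle h4).1 h
    have h6 := Nat.prime_three.dvd_of_dvd_pow h5
    norm_num at h6
  exact Nat.Coprime.mul_left h2 h3

/-- **the lower bound** -/
theorem lower {n : ℕ} {W : Finset (Fin n → Fin 6)}
    (hW : ∀ x : Conf, ∃ t : ℕ, (fun i : Fin n => F^[t] x (1 + ((i : ℕ) : ℤ))) ∈ W) {N : ℕ}
    (hN : 0 < N) : 3 ^ N - 2 ^ N ≤ N * (W.card * ((3 ^ N - 2 ^ N) / 6 ^ n + 1)) := by
  classical
  obtain ⟨m, hm⟩ : ∃ m, m = 3 ^ N - 2 ^ N := ⟨_, rfl⟩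
  have hlt : 2 ^ N < 3 ^ N := Nat.pow_lt_pow_left (by norm_num) hN.ne'
  have hm0 : 0 < m := by omega
  have : NeZero m := ⟨hm0.ne'⟩
  have hcop : Nat.Coprime 6 m := hm ▸ coprime_six hN
  obtain ⟨c, hc⟩ : ∃ c : (ZMod m)ˣ, (c : ZMod m) = 6 :=
    ⟨ZMod.unitOfCoprime 6 hcop, by simp [ZMod.coe_unitOfCoprime]⟩
  obtain ⟨g, hg⟩ : ∃ g : ZMod m, g = 9 * ((c⁻¹ : (ZMod m)ˣ) : ZMod m) := ⟨_, rfl⟩
  have h32 : (3 : ZMod m) ^ N = 2 ^ N := by
    have : ((3 ^ N : ℕ) : ZMod m) = ((2 ^ N : ℕ) : ZMod m) := by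
      have e1 : 3 ^ N = m + 2 ^ N := by omega
      rw [e1]
      push_cast
      rw [ZMod.natCast_self, zero_add]
    exact_mod_cast this
  have hgc : g * c = 9 := by rw [hg, mul_assoc, ← Units.val_mul, inv_mul_cancel, Units.val_one, mul_one]
  have hgN : g ^ N = 1 := by
    have e1 : g ^ N * (c : ZMod m) ^ N = (c : ZMod m) ^ N := by
      rw [← mul_pow, hgc, hc, show (9 : ZMod m) = 3 * 3 by norm_num,
        show (6 : ZMod m) = 2 * 3 by norm_num, mul_pow, mul_pow, h32]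
    have e2 : IsUnit ((c : ZMod m) ^ N) := (Units.isUnit c).pow N
    exact e2.mul_right_cancel (by rw [e1, one_mul])
  have hgu : ∀ t : ℕ, IsUnit (g ^ t) := by
    intro t
    have : IsUnit g := IsUnit.of_pow_eq_one hgN hN.ne'
    exact this.pow t
  have hvis : ∀ k : ZMod m, ∃ t < N, (fun i : Fin n => per m c (g ^ t * k) (1 + ((i : ℕ) : ℤ))) ∈ W := by
    intro k
    obtain ⟨t, ht⟩ := hW (per m c k)
    rw [iter_per hc, ← hg] at ht
    refine ⟨t % N, Nat.mod_lt _ hN, ?_⟩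
    have : g ^ (t % N) = g ^ t := by
      conv_rhs => rw [← Nat.mod_add_div t N, pow_add, pow_mul, hgN, one_pow, mul_one]
    rw [this]
    exact ht
  choose T hT1 hT2 using hvis
  obtain ⟨S, hS⟩ : ∃ S : Finset (ZMod m), S = univ.filter fun k =>
    (fun i : Fin n => per m c k (1 + ((i : ℕ) : ℤ))) ∈ W := ⟨_, rfl⟩
  have h1 : m ≤ N * S.card := by
    have e1 : (univ : Finset (ZMod m)).card = m := by rw [Finset.card_univ, ZMod.card]
    have e2 : (univ : Finset (ZMod m)).card ≤ (range N ×ˢ S).card := by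
      refine Finset.card_le_card_of_injOn (fun k => (T k, g ^ T k * k)) ?_ ?_
      · intro k _
        refine Finset.mem_coe.2 (Finset.mem_product.2 ⟨Finset.mem_range.2 (hT1 k), ?_⟩)
        rw [hS]
        exact Finset.mem_filter.2 ⟨Finset.mem_univ _, hT2 k⟩
      · intro k _ k' _ hkk
        have f1 : T k = T k' := congrArg Prod.fst hkk
        have f2 : g ^ T k * k = g ^ T k' * k' := congrArg Prod.snd hkk
        rw [← f1] at f2
        exact (hgu (T k)).mul_left_cancel f2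
    rw [e1, Finset.card_product, Finset.card_range] at e2
    exact e2
  have h2 : S.card ≤ W.card * (m / 6 ^ n + 1) := by
    rw [mul_comm]
    refine Finset.card_le_mul_card_image_of_maps_to (f := fun k =>
      (fun i : Fin n => per m c k (1 + ((i : ℕ) : ℤ)))) (s := S) (t := W) ?_ (m / 6 ^ n + 1) ?_
    · intro k hk
      rw [hS] at hk
      exact (Finset.mem_filter.1 hk).2
    · intro w hw
      have : ((S.filter fun k => (fun i : Fin n => per m c k (1 + ((i : ℕ) : ℤ))) = w).image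
          ZMod.val).card ≤ m / 6 ^ n + 1 := by
        refine card_code (e := enc w) _ ?_ hm0
        intro K hK
        obtain ⟨k, hk, rfl⟩ := Finset.mem_image.1 hK
        rw [← (Finset.mem_filter.1 hk).2, enc_per hc]
      rwa [Finset.card_image_of_injective _ (ZMod.val_injective m)] at this
  rw [← hm]
  exact h1.trans (Nat.mul_le_mul_left _ h2)

end Pool.Agent.Helper17.ZTH
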