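import Mathlib

/-!
# Sets of words which some orbit avoids
-/

set_option autoImplicit false

open Finset

namespace Pool.Agent.Helper17.ZTH.Sharp

/-- a finite set of naturals between two reals -/
theorem card_between {T : Finset ℕ} {u v B : ℝ} (h : ∀ a ∈ T, u ≤ a ∧ (a : ℝ) ≤ v)
    (hB : v - u + 1 ≤ B) (h0 : 0 ≤ B) : (T.card : ℝ) ≤ B := by
  rcases T.eq_empty_or_nonempty with rfl | hT
  · simpa using h0
  · have h1 := (h _ (T.min'_mem hT)).1
    have h2 := (h _ (T.max'_mem hT)).2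
    have h3 : T ⊆ Finset.Icc (T.min' hT) (T.max' hT) := fun a ha =>
      Finset.mem_Icc.2 ⟨T.min'_le a ha, T.le_max' a ha⟩
    have h4 := Finset.card_le_card h3
    rw [Nat.card_Icc] at h4
    have h5 : T.min' hT ≤ T.max' hT := T.min'_le _ (T.max'_mem hT)
    have h6 : (T.card : ℝ) ≤ ((T.max' hT + 1 - T.min' hT : ℕ) : ℝ) := by exact_mod_cast h4
    rw [Nat.cast_sub (by omega)] at h6
    push_cast at h6
    linarith

/-- the level of the grid at a time -/
noncomputable def lev (lam : ℝ) (b n : ℕ) : ℕ → ℕ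
  | 0 => 0
  | k + 1 => Nat.clog 2 ⌈(b : ℝ) ^ n * lam ^ k⌉₊

theorem one_lt_X {lam : ℝ} {b n : ℕ} (hl : 1 < lam) (hb : 2 ≤ b) (hn : 1 ≤ n) (k : ℕ) :
    1 < (b : ℝ) ^ n * lam ^ k := by
  have h1 : (1 : ℝ) < (b : ℝ) ^ n := one_lt_pow₀ (by exact_mod_cast hb) (by omega)
  have h2 : (1 : ℝ) ≤ lam ^ k := one_le_pow₀ hl.le
  nlinarith

theorem X_le {lam : ℝ} {b n : ℕ} (k : ℕ) : (b : ℝ) ^ n * lam ^ k ≤ 2 ^ lev lam b n (k + 1) := by
  have h1 := Nat.le_ceil ((b : ℝ) ^ n * lam ^ k)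
  have h2 := Nat.le_pow_clog (b := 2) (by norm_num) ⌈(b : ℝ) ^ n * lam ^ k⌉₊
  have h3 : ((⌈(b : ℝ) ^ n * lam ^ k⌉₊ : ℕ) : ℝ) ≤ 2 ^ lev lam b n (k + 1) := by
    rw [lev]
    exact_mod_cast h2
  exact h1.trans h3

theorem lt_X {lam : ℝ} {b n : ℕ} (hl : 1 < lam) (hb : 2 ≤ b) (hn : 1 ≤ n) (k : ℕ) :
    (2 : ℝ) ^ lev lam b n (k + 1) < 2 * ((b : ℝ) ^ n * lam ^ k) := by
  have h0 := one_lt_X hl hb hn k
  have h1 : 1 < ⌈(b : ℝ) ^ n * lam ^ k⌉₊ := by
    rw [Nat.lt_ceil]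
    exact_mod_cast h0
  have h2 := Nat.pow_pred_clog_lt_self (b := 2) (by norm_num) h1
  rw [Nat.lt_ceil] at h2
  have h3 : 0 < Nat.clog 2 ⌈(b : ℝ) ^ n * lam ^ k⌉₊ := Nat.clog_pos (by norm_num) h1
  rw [lev]
  obtain ⟨L, hL⟩ : ∃ L, Nat.clog 2 ⌈(b : ℝ) ^ n * lam ^ k⌉₊ = L + 1 :=
    ⟨_, (Nat.succ_pred_eq_of_pos h3).symm⟩
  rw [hL] at h2 ⊢
  rw [Nat.pred_succ] at h2
  push_cast at h2
  rw [pow_succ]
  linarith

theorem lev_mono {lam : ℝ} {b n : ℕ} (hl : 1 < lam) : Monotone (lev lam b n) := by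
  refine monotone_nat_of_le_succ fun k => ?_
  cases k with
  | zero => exact Nat.zero_le _
  | succ k =>
    rw [lev, lev]
    refine Nat.clog_mono_right 2 (Nat.ceil_le_ceil ?_)
    refine mul_le_mul_of_nonneg_left ?_ (by positivity)
    exact pow_le_pow_right₀ hl.le (Nat.le_succ k)

/-- the bad cells at time `k` -/
def Bad (lam : ℝ) (b n : ℕ) (E : Finset ℕ) (k a : ℕ) : Prop :=
  ∃ m : ℕ, ∃ e ∈ E, (a : ℝ) / 2 ^ lev lam b n (k + 1) * lam ^ k ≤ m + ((e : ℝ) + 1) / b ^ n ∧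
    (m : ℝ) + e / b ^ n ≤ ((a : ℝ) + 1) / 2 ^ lev lam b n (k + 1) * lam ^ k

/-- the surviving cells -/
noncomputable def S (lam : ℝ) (b n : ℕ) (E : Finset ℕ) (k : ℕ) : Finset ℕ := by
  classical
  exact (Finset.Ico (2 ^ lev lam b n k) (2 ^ (lev lam b n k + 1))).filter fun a =>
    ∀ j < k, ¬ Bad lam b n E j (a / 2 ^ (lev lam b n k - lev lam b n (j + 1)))

theorem mem_S {lam : ℝ} {b n : ℕ} {E : Finset ℕ} {k a : ℕ} : a ∈ S lam b n E k ↔
    (2 ^ lev lam b n k ≤ a ∧ a < 2 ^ (lev lam b n k + 1)) ∧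
      ∀ j < k, ¬ Bad lam b n E j (a / 2 ^ (lev lam b n k - lev lam b n (j + 1))) := by
  classical
  unfold S
  rw [Finset.mem_filter, Finset.mem_Ico]

/-- ancestors survive -/
theorem anc {lam : ℝ} {b n : ℕ} {E : Finset ℕ} (hl : 1 < lam) {i k a : ℕ} (hik : i ≤ k)
    (ha : a ∈ S lam b n E k) : a / 2 ^ (lev lam b n k - lev lam b n i) ∈ S lam b n E i := by
  have hm := lev_mono (b := b) (n := n) hl hik
  rw [mem_S] at ha ⊢
  refine ⟨⟨?_, ?_⟩, fun j hj => ?_⟩
  · rw [Nat.le_div_iff_mul_le (by positivity), ← pow_add, Nat.add_sub_cancel' hm]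
    exact ha.1.1
  · rw [Nat.div_lt_iff_lt_mul (by positivity), ← pow_add,
      show lev lam b n i + 1 + (lev lam b n k - lev lam b n i) = lev lam b n k + 1 by omega]
    exact ha.1.2
  · have h1 := ha.2 j (by omega)
    have hm2 := lev_mono (b := b) (n := n) hl (show j + 1 ≤ i by omega)
    rwa [Nat.div_div_eq_div_mul, ← pow_add,
      show lev lam b n k - lev lam b n i + (lev lam b n i - lev lam b n (j + 1)) =
        lev lam b n k - lev lam b n (j + 1) by omega]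

/-- the number of bad cells below a cell -/
theorem card_fiber {lam : ℝ} {b n : ℕ} {E : Finset ℕ} (hl : 1 < lam) (hb : 2 ≤ b) (hn : 1 ≤ n)
    (hE : ∀ e ∈ E, e < b ^ n) {i k c : ℕ} (hik : i ≤ k + 1) (T : Finset ℕ)
    (hT : ∀ a ∈ T, a / 2 ^ (lev lam b n (k + 1) - lev lam b n i) = c ∧ Bad lam b n E k a) :
    (T.card : ℝ) ≤ 3 * E.card * (lam ^ k / 2 ^ lev lam b n i + 2) := by
  classical
  have hlk : (0 : ℝ) < lam ^ k := by positivity
  have hbn : (0 : ℝ) < (b : ℝ) ^ n := by positivity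
  have hm := lev_mono (b := b) (n := n) hl hik
  obtain ⟨L, hL⟩ : ∃ L, L = lev lam b n (k + 1) := ⟨_, rfl⟩
  obtain ⟨Y, hY⟩ : ∃ Y : ℝ, Y = lam ^ k / 2 ^ lev lam b n i := ⟨_, rfl⟩
  obtain ⟨X, hX⟩ : ∃ X : ℝ, X = c * Y := ⟨_, rfl⟩
  have hY0 : 0 < Y := by rw [hY]; positivity
  have hX0 : 0 ≤ X := by rw [hX]; positivity
  have hXk := X_le (lam := lam) (b := b) (n := n) k
  have hXk2 := lt_X hl hb hn k
  rw [← hL] at hXk hXk2
  -- the positions of the cells
  have hpos : ∀ a ∈ T, X ≤ (a : ℝ) / 2 ^ L * lam ^ k ∧ ((a : ℝ) + 1) / 2 ^ L * lam ^ k ≤ X + Y := by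
    intro a ha
    have h1 := (hT a ha).1
    have h2 : c * 2 ^ (lev lam b n (k + 1) - lev lam b n i) ≤ a := by
      rw [← h1]
      exact Nat.div_mul_le_self _ _
    have h3 : a + 1 ≤ (c + 1) * 2 ^ (lev lam b n (k + 1) - lev lam b n i) := by
      rw [← h1]
      have := Nat.lt_div_mul_add (a := a) (b := 2 ^ (lev lam b n (k + 1) - lev lam b n i))
        (by positivity)
      rw [add_mul, one_mul]
      omega
    have h4 : (2 : ℝ) ^ L = 2 ^ (lev lam b n (k + 1) - lev lam b n i) * 2 ^ lev lam b n i := by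
      rw [← pow_add, Nat.sub_add_cancel hm, hL]
    have h2' : (c : ℝ) * 2 ^ (lev lam b n (k + 1) - lev lam b n i) ≤ a := by exact_mod_cast h2
    have h3' : (a : ℝ) + 1 ≤ ((c : ℝ) + 1) * 2 ^ (lev lam b n (k + 1) - lev lam b n i) := by
      exact_mod_cast h3
    constructor
    · rw [hX, hY, mul_div_assoc', div_mul_eq_mul_div, div_le_div_iff₀ (by positivity) (by positivity),
        h4]
      calc (c : ℝ) * lam ^ k * (2 ^ (lev lam b n (k + 1) - lev lam b n i) * 2 ^ lev lam b n i)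
          = (c * 2 ^ (lev lam b n (k + 1) - lev lam b n i)) * (lam ^ k * 2 ^ lev lam b n i) := by ring
        _ ≤ a * (lam ^ k * 2 ^ lev lam b n i) := by gcongr
        _ = _ := by ring
    · have : X + Y = (c + 1) * lam ^ k / 2 ^ lev lam b n i := by rw [hX, hY]; ring
      rw [this, div_mul_eq_mul_div, div_le_div_iff₀ (by positivity) (by positivity), h4]
      calc ((a : ℝ) + 1) * lam ^ k * 2 ^ lev lam b n i
          ≤ (((c : ℝ) + 1) * 2 ^ (lev lam b n (k + 1) - lev lam b n i)) * lam ^ k *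
            2 ^ lev lam b n i := by gcongr
        _ = _ := by ring
  -- the integers
  obtain ⟨MM, hMM⟩ : ∃ MM : Finset ℕ, MM = (range (⌊X + Y⌋₊ + 1)).filter fun m : ℕ =>
    X - 1 ≤ (m : ℝ) := ⟨_, rfl⟩
  have hMc : (MM.card : ℝ) ≤ Y + 2 := by
    refine card_between (u := X - 1) (v := X + Y) (fun m hm => ?_) (by linarith) (by linarith)
    rw [hMM, Finset.mem_filter, Finset.mem_range] at hm
    exact ⟨hm.2, (Nat.le_floor_iff (by positivity)).1 (Nat.lt_succ_iff.1 hm.1)⟩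
  -- the cells which meet an interval
  have hsub : T ⊆ (MM ×ˢ E).biUnion fun me => T.filter fun a : ℕ =>
      (a : ℝ) / 2 ^ L * lam ^ k ≤ me.1 + ((me.2 : ℝ) + 1) / b ^ n ∧
      (me.1 : ℝ) + me.2 / b ^ n ≤ ((a : ℝ) + 1) / 2 ^ L * lam ^ k := by
    intro a ha
    obtain ⟨m, e, he, h1, h2⟩ := (hT a ha).2
    rw [← hL] at h1 h2
    obtain ⟨h3, h4⟩ := hpos a ha
    rw [Finset.mem_biUnion]
    refine ⟨(m, e), Finset.mem_product.2 ⟨?_, he⟩, Finset.mem_filter.2 ⟨ha, h1, h2⟩⟩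
    rw [hMM, Finset.mem_filter, Finset.mem_range, Nat.lt_succ_iff,
      Nat.le_floor_iff (by positivity)]
    have h5 : (0 : ℝ) ≤ (e : ℝ) / b ^ n := by positivity
    have h6 : ((e : ℝ) + 1) / b ^ n ≤ 1 := by
      rw [div_le_one hbn]
      exact_mod_cast hE e he
    exact ⟨by dsimp only; linarith, by dsimp only; linarith⟩
  have hcell : ∀ me ∈ MM ×ˢ E, (T.filter fun a : ℕ =>
      (a : ℝ) / 2 ^ L * lam ^ k ≤ me.1 + ((me.2 : ℝ) + 1) / b ^ n ∧
      (me.1 : ℝ) + me.2 / b ^ n ≤ ((a : ℝ) + 1) / 2 ^ L * lam ^ k).card ≤ 3 := by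
    intro me _
    obtain ⟨r, hr⟩ : ∃ r : ℝ, r = 2 ^ L / lam ^ k := ⟨_, rfl⟩
    have hr0 : 0 < r := by rw [hr]; positivity
    have hr2 : r * (1 / b ^ n) < 2 := by
      rw [hr, mul_one_div, div_div, div_lt_iff₀ (by positivity)]
      linarith
    have h1 : (((T.filter fun a : ℕ =>
      (a : ℝ) / 2 ^ L * lam ^ k ≤ me.1 + ((me.2 : ℝ) + 1) / b ^ n ∧
      (me.1 : ℝ) + me.2 / b ^ n ≤ ((a : ℝ) + 1) / 2 ^ L * lam ^ k).card : ℕ) : ℝ) ≤
        r * (1 / b ^ n) + 2 := by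
      refine card_between (u := r * (me.1 + me.2 / b ^ n) - 1)
        (v := r * (me.1 + ((me.2 : ℝ) + 1) / b ^ n)) (fun a ha => ?_) (le_of_eq ?_) (by positivity)
      · obtain ⟨_, h2, h3⟩ := Finset.mem_filter.1 ha
        have e1 : r * ((a : ℝ) / 2 ^ L * lam ^ k) = a := by
          rw [hr]; field_simp
        have e2 : r * (((a : ℝ) + 1) / 2 ^ L * lam ^ k) = a + 1 := by
          rw [hr]; field_simp
        have h4 := mul_le_mul_of_nonneg_left h2 hr0.le
        have h5 := mul_le_mul_of_nonneg_left h3 hr0.le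
        rw [e1] at h4
        rw [e2] at h5
        exact ⟨by linarith, h4⟩
      · ring
    have h2 : (((T.filter fun a : ℕ =>
      (a : ℝ) / 2 ^ L * lam ^ k ≤ me.1 + ((me.2 : ℝ) + 1) / b ^ n ∧
      (me.1 : ℝ) + me.2 / b ^ n ≤ ((a : ℝ) + 1) / 2 ^ L * lam ^ k).card : ℕ) : ℝ) < 4 := by
      linarith
    exact Nat.lt_succ_iff.1 ((Nat.cast_lt (α := ℝ)).1 (h2.trans_eq (Nat.cast_ofNat (n := 4)).symm))
  have h1 := (Finset.card_le_card hsub).trans (Finset.card_biUnion_le_card_mul _ _ 3 hcell)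
  rw [Finset.card_product] at h1
  have h2 : (T.card : ℝ) ≤ MM.card * E.card * 3 := by exact_mod_cast h1
  calc (T.card : ℝ) ≤ MM.card * E.card * 3 := h2
    _ ≤ (Y + 2) * E.card * 3 := by gcongr
    _ = 3 * E.card * (lam ^ k / 2 ^ lev lam b n i + 2) := by rw [← hY]; ring

/-- the proportion of surviving cells -/
noncomputable def nu (lam : ℝ) (b n : ℕ) (E : Finset ℕ) (k : ℕ) : ℝ :=
  ((S lam b n E k).card : ℝ) / 2 ^ lev lam b n k

/-- the recursion -/
theorem recursion {lam : ℝ} {b n : ℕ} {E : Finset ℕ} (hl : 1 < lam) (hb : 2 ≤ b) (hn : 1 ≤ n)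
    (hE : ∀ e ∈ E, e < b ^ n) {M : ℕ} (hM : (b : ℝ) ^ n ≤ lam ^ M) (k : ℕ) :
    nu lam b n E k ≤ nu lam b n E (k + 1) +
      15 * E.card / b ^ n * nu lam b n E (k + 1 - M) := by
  classical
  obtain ⟨i, hi⟩ : ∃ i, i = k + 1 - M := ⟨_, rfl⟩
  rw [← hi]
  have hlk : (0 : ℝ) < lam ^ k := by positivity
  have hbn : (0 : ℝ) < (b : ℝ) ^ n := by positivity
  have hM1 : 1 ≤ M := by
    rcases Nat.eq_zero_or_pos M with h | h
    · exfalso
      rw [h, pow_zero] at hM
      have := one_lt_X hl hb hn 0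
      rw [pow_zero, mul_one] at this
      linarith
    · exact h
  have hik : i ≤ k := by omega
  have hmk : lev lam b n k ≤ lev lam b n (k + 1) := lev_mono (b := b) (n := n) hl (Nat.le_succ k)
  have hmi := lev_mono (b := b) (n := n) hl (show i ≤ k + 1 by omega)
  have hmi2 := lev_mono (b := b) (n := n) hl hik
  have hXk := X_le (lam := lam) (b := b) (n := n) k
  -- the size of the ancestors
  have hLi : lam ^ k + 2 * 2 ^ lev lam b n i ≤ 5 * lam ^ k := by
    rcases Nat.eq_zero_or_pos i with h0 | h0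
    · rw [h0, lev, pow_zero]
      have : (1 : ℝ) ≤ lam ^ k := one_le_pow₀ hl.le
      linarith
    · obtain ⟨j, rfl⟩ : ∃ j, i = j + 1 := ⟨i - 1, by omega⟩
      have h1 := lt_X hl hb hn j
      have h2 : (b : ℝ) ^ n * lam ^ j ≤ lam ^ k := by
        rw [show k = M + j by omega, pow_add]
        gcongr
      linarith
  -- the children
  obtain ⟨D, hD⟩ : ∃ D, D = lev lam b n (k + 1) - lev lam b n k := ⟨_, rfl⟩
  have hch : (S lam b n E k).card * 2 ^ D ≤ ((Finset.Ico (2 ^ lev lam b n (k + 1))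
      (2 ^ (lev lam b n (k + 1) + 1))).filter fun a => a / 2 ^ D ∈ S lam b n E k).card := by
    rw [← Finset.card_range (2 ^ D), ← Finset.card_product]
    rw [Finset.card_range]
    refine Finset.card_le_card_of_injOn (fun cr => cr.1 * 2 ^ D + cr.2) ?_ ?_
    · rintro ⟨c, r⟩ hcr
      simp only [Finset.coe_product, Set.mem_prod, Finset.mem_coe, Finset.mem_range] at hcr
      obtain ⟨hc, hr⟩ := hcr
      have hc' := hc
      rw [mem_S] at hc'
      have e1 : (c * 2 ^ D + r) / 2 ^ D = c := by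
        rw [add_comm, Nat.add_mul_div_right _ _ (by positivity), Nat.div_eq_of_lt hr, zero_add]
      have e2 : 2 ^ lev lam b n (k + 1) = 2 ^ lev lam b n k * 2 ^ D := by
        rw [← pow_add]; congr 1; omega
      have e3 : 2 ^ (lev lam b n (k + 1) + 1) = 2 ^ (lev lam b n k + 1) * 2 ^ D := by
        rw [← pow_add]; congr 1; omega
      simp only [Finset.coe_filter, Set.mem_ofPred_eq, Finset.mem_Ico]
      refine ⟨⟨?_, ?_⟩, ?_⟩
      · rw [e2]
        exact (Nat.mul_le_mul_right _ hc'.1.1).trans (Nat.le_add_right _ _)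
      · rw [e3]
        calc c * 2 ^ D + r < c * 2 ^ D + 2 ^ D := by omega
          _ = (c + 1) * 2 ^ D := by ring
          _ ≤ _ := Nat.mul_le_mul_right _ hc'.1.2
      · rw [e1]
        exact hc
    · rintro ⟨c, r⟩ hcr ⟨c', r'⟩ hcr' h
      simp only [Finset.coe_product, Set.mem_prod, Finset.mem_coe, Finset.mem_range] at hcr hcr' h
      have e1 : (c * 2 ^ D + r) / 2 ^ D = c := by
        rw [add_comm, Nat.add_mul_div_right _ _ (by positivity), Nat.div_eq_of_lt hcr.2, zero_add]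
      have e2 : (c' * 2 ^ D + r') / 2 ^ D = c' := by
        rw [add_comm, Nat.add_mul_div_right _ _ (by positivity), Nat.div_eq_of_lt hcr'.2, zero_add]
      have e3 : c = c' := by rw [← e1, h, e2]
      subst e3
      simp only [Prod.mk.injEq, true_and]
      omega
  -- the bad ones
  obtain ⟨B, hB⟩ : ∃ B : Finset ℕ, B = (Finset.Ico (2 ^ lev lam b n (k + 1))
      (2 ^ (lev lam b n (k + 1) + 1))).filter fun a =>
        a / 2 ^ (lev lam b n (k + 1) - lev lam b n i) ∈ S lam b n E i ∧ Bad lam b n E k a := ⟨_, rfl⟩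
  have hcov : ((Finset.Ico (2 ^ lev lam b n (k + 1))
      (2 ^ (lev lam b n (k + 1) + 1))).filter fun a => a / 2 ^ D ∈ S lam b n E k) ⊆
      S lam b n E (k + 1) ∪ B := by
    intro a ha
    rw [Finset.mem_filter, Finset.mem_Ico] at ha
    rw [Finset.mem_union]
    by_cases hbad : Bad lam b n E k a
    · right
      rw [hB, Finset.mem_filter, Finset.mem_Ico]
      refine ⟨ha.1, ?_, hbad⟩
      have h1 := anc hl hik ha.2
      rwa [Nat.div_div_eq_div_mul, ← pow_add,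
        show D + (lev lam b n k - lev lam b n i) = lev lam b n (k + 1) - lev lam b n i by omega]
        at h1
    · left
      rw [mem_S]
      refine ⟨ha.1, fun j hj => ?_⟩
      rcases Nat.lt_succ_iff_lt_or_eq.1 hj with h | h
      · have h1 := (mem_S.1 ha.2).2 j h
        have hmj := lev_mono (b := b) (n := n) hl (show j + 1 ≤ k by omega)
        rwa [Nat.div_div_eq_div_mul, ← pow_add,
          show D + (lev lam b n k - lev lam b n (j + 1)) =
            lev lam b n (k + 1) - lev lam b n (j + 1) by omega] at h1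
      · rw [h, Nat.sub_self, pow_zero, Nat.div_one]
        exact hbad
  have hBc : (B.card : ℝ) ≤ (S lam b n E i).card *
      (3 * E.card * (lam ^ k / 2 ^ lev lam b n i + 2)) := by
    have h1 : B.card = ∑ c ∈ S lam b n E i,
        (B.filter fun a => a / 2 ^ (lev lam b n (k + 1) - lev lam b n i) = c).card := by
      refine Finset.card_eq_sum_card_fiberwise fun a ha => ?_
      rw [hB] at ha
      exact (Finset.mem_filter.1 ha).2.1
    rw [h1]
    push_cast
    rw [← nsmul_eq_mul]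
    refine Finset.sum_le_card_nsmul _ _ _ fun c _ => ?_
    refine card_fiber (c := c) hl hb hn hE (show i ≤ k + 1 by omega) _ fun a ha => ?_
    obtain ⟨h2, h3⟩ := Finset.mem_filter.1 ha
    rw [hB] at h2
    exact ⟨h3, (Finset.mem_filter.1 h2).2.2⟩
  have h1 := hch.trans ((Finset.card_le_card hcov).trans (Finset.card_union_le _ _))
  have h2 : ((S lam b n E k).card : ℝ) * 2 ^ D ≤ (S lam b n E (k + 1)).card + B.card := by
    exact_mod_cast h1
  have hD2 : (2 : ℝ) ^ lev lam b n (k + 1) = 2 ^ lev lam b n k * 2 ^ D := by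
    rw [← pow_add]; congr 1; omega
  have h3 : nu lam b n E k * 2 ^ lev lam b n (k + 1) = (S lam b n E k).card * 2 ^ D := by
    rw [nu, hD2]
    field_simp
  have h4 : nu lam b n E (k + 1) * 2 ^ lev lam b n (k + 1) = (S lam b n E (k + 1)).card := by
    rw [nu]
    field_simp
  have h5 : (B.card : ℝ) ≤ 15 * E.card / b ^ n * nu lam b n E i * 2 ^ lev lam b n (k + 1) := by
    have e1 : ((S lam b n E i).card : ℝ) = nu lam b n E i * 2 ^ lev lam b n i := by
      rw [nu]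
      field_simp
    have hnu : 0 ≤ nu lam b n E i := by rw [nu]; positivity
    rw [e1] at hBc
    calc (B.card : ℝ) ≤ nu lam b n E i * 2 ^ lev lam b n i *
          (3 * E.card * (lam ^ k / 2 ^ lev lam b n i + 2)) := hBc
      _ = nu lam b n E i * (3 * E.card) * (lam ^ k + 2 * 2 ^ lev lam b n i) := by
          field_simp
          try ring
      _ ≤ nu lam b n E i * (3 * E.card) * (5 * lam ^ k) := by gcongr
      _ = 15 * E.card / b ^ n * nu lam b n E i * ((b : ℝ) ^ n * lam ^ k) := by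
          field_simp
          try ring
      _ ≤ _ := by gcongr
  have h6 : nu lam b n E k * 2 ^ lev lam b n (k + 1) ≤
      (nu lam b n E (k + 1) + 15 * E.card / b ^ n * nu lam b n E i) *
        2 ^ lev lam b n (k + 1) := by
    rw [add_mul, h3, h4]
    linarith
  exact le_of_mul_le_mul_right h6 (by positivity)

theorem pow_third {M : ℕ} (hM : 2 ≤ M) {d : ℕ} (hd : d ≤ M - 1) : 1 ≤ 3 * (1 - 1 / (M : ℝ)) ^ d := by
  obtain ⟨m, rfl⟩ : ∃ m, M = m + 1 := ⟨M - 1, by omega⟩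
  rw [Nat.add_sub_cancel] at hd
  have hm : (0 : ℝ) < m := by exact_mod_cast (show 0 < m by omega)
  have e1 : 1 - 1 / ((m + 1 : ℕ) : ℝ) = (1 + 1 / (m : ℝ))⁻¹ := by
    push_cast
    field_simp
    ring
  rw [e1, inv_pow]
  have h1 : (1 + 1 / (m : ℝ)) ^ d ≤ (1 + 1 / (m : ℝ)) ^ m :=
    pow_le_pow_right₀ (by rw [le_add_iff_nonneg_right]; positivity) hd
  have h2 : (1 + 1 / (m : ℝ)) ^ m ≤ 3 := by
    have h3 : 1 + 1 / (m : ℝ) ≤ Real.exp (1 / m) := by
      rw [add_comm]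
      exact Real.add_one_le_exp _
    calc (1 + 1 / (m : ℝ)) ^ m ≤ Real.exp (1 / m) ^ m := by gcongr
      _ = Real.exp 1 := by rw [← Real.exp_nat_mul]; congr 1; field_simp
      _ ≤ 3 := by linarith [Real.exp_one_lt_d9]
  have h4 : 0 < (1 + 1 / (m : ℝ)) ^ d := by positivity
  rw [← div_eq_mul_inv, one_le_div h4]
  exact h1.trans h2

/-- the proportion decays slowly -/
theorem nu_step {lam : ℝ} {b n : ℕ} {E : Finset ℕ} (hl : 1 < lam) (hb : 2 ≤ b) (hn : 1 ≤ n)
    (hE : ∀ e ∈ E, e < b ^ n) {M : ℕ} (hM : (b : ℝ) ^ n ≤ lam ^ M) (hM2 : 2 ≤ M)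
    (hc : 45 * M * E.card ≤ b ^ n) (k : ℕ) :
    0 < nu lam b n E k ∧ ∀ i ≤ k, nu lam b n E i * (1 - 1 / (M : ℝ)) ^ (k - i) ≤ nu lam b n E k := by
  have hMr : (2 : ℝ) ≤ M := by exact_mod_cast hM2
  have hbn : (0 : ℝ) < (b : ℝ) ^ n := by positivity
  have hq : 0 < 1 - 1 / (M : ℝ) := by
    rw [sub_pos, div_lt_one (by positivity)]
    linarith
  have hd : 15 * (E.card : ℝ) / b ^ n ≤ 1 / (3 * M) := by
    rw [div_le_div_iff₀ hbn (by positivity)]
    have : (45 : ℝ) * M * E.card ≤ b ^ n := by exact_mod_cast hc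
    linarith
  induction k with
  | zero =>
    constructor
    · rw [nu]
      have : 0 < (S lam b n E 0).card := by
        refine Finset.card_pos.2 ⟨1, ?_⟩
        rw [mem_S]
        exact ⟨⟨le_of_eq (by rw [lev, pow_zero]), by rw [lev]; norm_num⟩,
          fun j hj => absurd hj (Nat.not_lt_zero j)⟩
      positivity
    · intro i hi
      rw [Nat.le_zero.1 hi]
      simp
  | succ k ih =>
    obtain ⟨h0, h1⟩ := ih
    have h2 := recursion hl hb hn hE hM k
    obtain ⟨i, hi⟩ : ∃ i, i = k + 1 - M := ⟨_, rfl⟩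
    rw [← hi] at h2
    have h3 := h1 i (by omega)
    have h4 := pow_third hM2 (show k - i ≤ M - 1 by omega)
    have hnu : 0 ≤ nu lam b n E i := by rw [nu]; positivity
    have h5 : nu lam b n E i ≤ 3 * nu lam b n E k := by
      calc nu lam b n E i = nu lam b n E i * 1 := (mul_one _).symm
        _ ≤ nu lam b n E i * (3 * (1 - 1 / (M : ℝ)) ^ (k - i)) := by gcongr
        _ = 3 * (nu lam b n E i * (1 - 1 / (M : ℝ)) ^ (k - i)) := by ring
        _ ≤ _ := by gcongr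
    have h6 : 15 * E.card / b ^ n * nu lam b n E i ≤ 1 / M * nu lam b n E k := by
      calc 15 * E.card / b ^ n * nu lam b n E i ≤ 1 / (3 * M) * (3 * nu lam b n E k) := by gcongr
        _ = 1 / M * nu lam b n E k := by field_simp
    have h7 : nu lam b n E k * (1 - 1 / (M : ℝ)) ≤ nu lam b n E (k + 1) := by linarith
    refine ⟨(mul_pos h0 hq).trans_le h7, fun j hj => ?_⟩
    rcases Nat.le_succ_iff.1 hj with h | h
    · rw [show k + 1 - j = (k - j) + 1 by omega, pow_succ, ← mul_assoc]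
      exact (mul_le_mul_of_nonneg_right (h1 j h) hq.le).trans h7
    · rw [h]
      simp

/-- the union of the surviving cells -/
noncomputable def CC (lam : ℝ) (b n : ℕ) (E : Finset ℕ) (k : ℕ) : Set ℝ :=
  ⋃ a ∈ S lam b n E k, Set.Icc ((a : ℝ) / 2 ^ lev lam b n k) (((a : ℝ) + 1) / 2 ^ lev lam b n k)

/-- **an orbit which avoids a small set** -/
theorem avoid {lam : ℝ} {b n : ℕ} {E : Finset ℕ} (hl : 1 < lam) (hb : 2 ≤ b) (hn : 1 ≤ n)
    (hE : ∀ e ∈ E, e < b ^ n) {M : ℕ} (hM : (b : ℝ) ^ n ≤ lam ^ M) (hM2 : 2 ≤ M)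
    (hc : 45 * M * E.card ≤ b ^ n) :
    ∃ ξ : ℝ, 1 ≤ ξ ∧ ξ ≤ 2 ∧ ∀ k : ℕ, ⌊(b : ℝ) ^ n * Int.fract (ξ * lam ^ k)⌋₊ ∉ E := by
  have hbn : (0 : ℝ) < (b : ℝ) ^ n := by positivity
  have hcomp : ∀ k, IsCompact (CC lam b n E k) := fun k =>
    Finset.isCompact_biUnion _ fun a _ => isCompact_Icc
  have hne : ∀ k, (CC lam b n E k).Nonempty := by
    intro k
    have h1 := (nu_step hl hb hn hE hM hM2 hc k).1
    have h2 : (S lam b n E k).Nonempty := by
      rw [Finset.nonempty_iff_ne_empty]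
      intro h
      rw [nu, h] at h1
      simp at h1
    obtain ⟨a, ha⟩ := h2
    refine ⟨(a : ℝ) / 2 ^ lev lam b n k, Set.mem_biUnion ha ⟨le_rfl, ?_⟩⟩
    gcongr
    linarith
  have hdec : ∀ k, CC lam b n E (k + 1) ⊆ CC lam b n E k := by
    intro k x hx
    rw [CC, Set.mem_iUnion₂] at hx ⊢
    obtain ⟨a, ha, h1, h2⟩ := hx
    have hmk : lev lam b n k ≤ lev lam b n (k + 1) := lev_mono (b := b) (n := n) hl (Nat.le_succ k)
    refine ⟨_, anc hl (Nat.le_succ k) ha, ?_, ?_⟩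
    · refine le_trans ?_ h1
      rw [div_le_div_iff₀ (by positivity) (by positivity)]
      have e1 : (2 : ℝ) ^ lev lam b n (k + 1) = 2 ^ (lev lam b n (k + 1) - lev lam b n k) *
          2 ^ lev lam b n k := by rw [← pow_add, Nat.sub_add_cancel hmk]
      have e2 : a / 2 ^ (lev lam b n (k + 1) - lev lam b n k) *
          2 ^ (lev lam b n (k + 1) - lev lam b n k) ≤ a := Nat.div_mul_le_self _ _
      have e3 : ((a / 2 ^ (lev lam b n (k + 1) - lev lam b n k) : ℕ) : ℝ) *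
          2 ^ (lev lam b n (k + 1) - lev lam b n k) ≤ a := by exact_mod_cast e2
      rw [e1, ← mul_assoc]
      gcongr
    · refine h2.trans ?_
      rw [div_le_div_iff₀ (by positivity) (by positivity)]
      have e1 : (2 : ℝ) ^ lev lam b n (k + 1) = 2 ^ (lev lam b n (k + 1) - lev lam b n k) *
          2 ^ lev lam b n k := by rw [← pow_add, Nat.sub_add_cancel hmk]
      have e2 : a + 1 ≤ (a / 2 ^ (lev lam b n (k + 1) - lev lam b n k) + 1) *
          2 ^ (lev lam b n (k + 1) - lev lam b n k) := by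
        have := Nat.lt_div_mul_add (a := a) (b := 2 ^ (lev lam b n (k + 1) - lev lam b n k))
          (by positivity)
        rw [add_mul, one_mul]
        omega
      have e3 : (a : ℝ) + 1 ≤ (((a / 2 ^ (lev lam b n (k + 1) - lev lam b n k) : ℕ) : ℝ) + 1) *
          2 ^ (lev lam b n (k + 1) - lev lam b n k) := by exact_mod_cast e2
      rw [e1, ← mul_assoc]
      gcongr
  obtain ⟨ξ, hξ⟩ := IsCompact.nonempty_iInter_of_sequence_nonempty_isCompact_isClosed
    (CC lam b n E) hdec hne (hcomp 0) (fun k => (hcomp k).isClosed)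
  rw [Set.mem_iInter] at hξ
  have h0 := hξ 0
  rw [CC, Set.mem_iUnion₂] at h0
  obtain ⟨a, ha, h1, h2⟩ := h0
  have ha' := (mem_S.1 ha).1
  rw [lev] at ha' h1 h2
  have ha1 : a = 1 := by omega
  rw [ha1, pow_zero] at h1 h2
  norm_num at h1 h2
  refine ⟨ξ, h1, h2, fun k hk => ?_⟩
  have hk1 := hξ (k + 1)
  rw [CC, Set.mem_iUnion₂] at hk1
  obtain ⟨c, hcS, h3, h4⟩ := hk1
  have h5 := (mem_S.1 hcS).2 k (Nat.lt_succ_self k)
  rw [Nat.sub_self, pow_zero, Nat.div_one] at h5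
  refine h5 ⟨⌊ξ * lam ^ k⌋₊, _, hk, ?_, ?_⟩
  all_goals
    have hlk : (0 : ℝ) < lam ^ k := by positivity
    have hy : 0 ≤ ξ * lam ^ k := by positivity
    have e1 : ξ * lam ^ k = ⌊ξ * lam ^ k⌋₊ + Int.fract (ξ * lam ^ k) := by
      rw [Int.fract, ← Int.natCast_floor_eq_floor hy]
      push_cast
      ring
  · have e2 := Nat.lt_floor_add_one ((b : ℝ) ^ n * Int.fract (ξ * lam ^ k))
    have e3 : Int.fract (ξ * lam ^ k) ≤
        ((⌊(b : ℝ) ^ n * Int.fract (ξ * lam ^ k)⌋₊ : ℝ) + 1) / b ^ n := by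
      rw [le_div_iff₀ hbn, mul_comm]
      exact e2.le
    have e4 : (c : ℝ) / 2 ^ lev lam b n (k + 1) * lam ^ k ≤ ξ * lam ^ k := by gcongr
    linarith
  · have e2 := Nat.floor_le (mul_nonneg hbn.le (Int.fract_nonneg (ξ * lam ^ k)))
    have e3 : (⌊(b : ℝ) ^ n * Int.fract (ξ * lam ^ k)⌋₊ : ℝ) / b ^ n ≤
        Int.fract (ξ * lam ^ k) := by
      rw [div_le_iff₀ hbn]
      exact e2.trans_eq (mul_comm _ _)
    have e4 : ξ * lam ^ k ≤ ((c : ℝ) + 1) / 2 ^ lev lam b n (k + 1) * lam ^ k := by gcongr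
    linarith

end Pool.Agent.Helper17.ZTH.Sharp
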