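import Pool.Agent.Helper17.ZTH.Orbit

/-!
# No orbit of multiplication by `3 / 2` stays in a third of the circle
-/

set_option autoImplicit false

open Finset

namespace Pool.Agent.Helper17.ZTH

theorem growth {a b C : ℝ} (hb : 0 < b) (hab : b < a) {v : ℕ → ℝ} (h : ∀ m, b * v (m + 1) = a * v m)
    (hC : ∀ m, |v m| ≤ C) : v 0 = 0 := by
  have h1 : ∀ m, v m = (a / b) ^ m * v 0 := by
    intro m
    induction m with
    | zero => simp
    | succ m ih =>
      have := h m
      rw [ih] at this
      rw [pow_succ]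
      field_simp at this ⊢
      linarith
  by_contra hne
  have h2 : 1 < a / b := by rwa [one_lt_div hb]
  obtain ⟨m, hm⟩ := pow_unbounded_of_one_lt (C / |v 0|) h2
  have h3 : 0 < |v 0| := abs_pos.2 hne
  have h4 := hC m
  rw [h1 m, abs_mul, abs_of_pos (pow_pos (by linarith) m)] at h4
  rw [div_lt_iff₀ h3] at hm
  linarith

theorem int_zero {a b : ℤ} (hb : 2 ≤ b) (hab : IsCoprime b a) {Z : ℕ → ℤ}
    (h : ∀ m, b * Z (m + 1) = a * Z m) : Z 0 = 0 := by
  have h1 : ∀ m, b ^ m * Z m = a ^ m * Z 0 := by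
    intro m
    induction m with
    | zero => simp
    | succ m ih =>
      rw [pow_succ, pow_succ]
      linear_combination b ^ m * h m + a * ih
  have h2 : ∀ m : ℕ, b ^ m ∣ Z 0 := by
    intro m
    refine IsCoprime.dvd_of_dvd_mul_left (hab.pow (m := m) (n := m)) ?_
    rw [← h1 m]
    exact Dvd.intro _ rfl
  by_contra hne
  have h3 := Int.le_of_dvd (abs_pos.2 hne) ((dvd_abs _ _).2 (h2 (Z 0).natAbs))
  have h4 : ((Z 0).natAbs : ℤ) < b ^ (Z 0).natAbs := by
    calc ((Z 0).natAbs : ℤ) < 2 ^ (Z 0).natAbs := by exact_mod_cast Nat.lt_two_pow_self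
      _ ≤ b ^ (Z 0).natAbs := pow_le_pow_left₀ (by norm_num) hb _
  rw [Int.abs_eq_natAbs] at h3
  omega

/-- an orbit that stays in a third of the circle is the orbit of zero -/
theorem trap {z : ℕ → ℝ} (hz : ∀ k, 2 * z (k + 1) = 3 * z k) {c : ℕ} (hc : c < 3)
    (h1 : ∀ k, (c : ℝ) ≤ 3 * Int.fract (z k)) (h2 : ∀ k, 3 * Int.fract (z k) < c + 1) : z 0 = 0 := by
  set y : ℕ → ℝ := fun k => Int.fract (z k) with hy
  set G : ℕ → ℤ := fun k => ⌊z k⌋ with hG
  have hzG : ∀ k, z k = G k + y k := fun k => (Int.floor_add_fract (z k)).symm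
  have hy0 : ∀ k, 0 ≤ y k := fun k => Int.fract_nonneg _
  have hy1 : ∀ k, y k < 1 := fun k => Int.fract_lt_one _
  have hd : ∀ k, ((2 * G (k + 1) - 3 * G k : ℤ) : ℝ) = 3 * y k - 2 * y (k + 1) := by
    intro k
    have := hz k
    rw [hzG, hzG] at this
    push_cast
    linarith
  have h1' : ∀ k, (c : ℝ) ≤ 3 * y k := h1
  have h2' : ∀ k, 3 * y k < c + 1 := h2
  have hyb : ∀ k, |y k| ≤ 1 := fun k => by rw [abs_of_nonneg (hy0 k)]; exact (hy1 k).le
  interval_cases c
  · -- first third
    have h3 : ∀ k, 2 * G (k + 1) - 3 * G k = 0 := by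
      intro k
      have e1 := hd k
      have e2 := h2' k
      have e3 := h2' (k + 1)
      have e4 := hy0 k
      have e5 := hy0 (k + 1)
      push_cast at e2 e3
      have e6 : ((2 * G (k + 1) - 3 * G k : ℤ) : ℝ) < 1 := by rw [e1]; linarith
      have e7 : (-1 : ℝ) < ((2 * G (k + 1) - 3 * G k : ℤ) : ℝ) := by rw [e1]; linarith
      have e6' : 2 * G (k + 1) - 3 * G k < 1 := by exact_mod_cast e6
      have e7' : -1 < 2 * G (k + 1) - 3 * G k := by exact_mod_cast e7
      omega
    have h4 : G 0 = 0 := int_zero (a := 3) (b := 2) le_rfl (by norm_num) fun m => by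
      have := h3 m
      linarith
    have h5 : y 0 = 0 := growth (a := 3) (b := 2) (by norm_num) (by norm_num) (fun m => by
      have e1 := hd m
      rw [h3 m] at e1
      push_cast at e1
      linarith) hyb
    rw [hzG, h4, h5]
    norm_num
  · -- middle third
    exfalso
    have hdr : ∀ k, 2 * G (k + 1) - 3 * G k = 0 ∨ 2 * G (k + 1) - 3 * G k = 1 := by
      intro k
      have e1 := hd k
      have e2 := h2' k
      have e3 := h2' (k + 1)
      have e4 := h1' k
      have e5 := h1' (k + 1)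
      push_cast at e2 e3 e4 e5
      have e6 : ((2 * G (k + 1) - 3 * G k : ℤ) : ℝ) < 2 := by rw [e1]; linarith
      have e7 : (-1 : ℝ) < ((2 * G (k + 1) - 3 * G k : ℤ) : ℝ) := by rw [e1]; linarith
      have e6' : 2 * G (k + 1) - 3 * G k < 2 := by exact_mod_cast e6
      have e7' : -1 < 2 * G (k + 1) - 3 * G k := by exact_mod_cast e7
      omega
    have hd1 : ∀ k, 2 * G (k + 1) - 3 * G k = 1 → 2 * G (k + 1 + 1) - 3 * G (k + 1) = 0 := by
      intro k hk
      rcases hdr (k + 1) with h | h
      · exact h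
      · exfalso
        have e1 := hd k
        have e2 := hd (k + 1)
        rw [hk] at e1
        rw [h] at e2
        have e3 := h2' k
        have e4 := h1' (k + 1 + 1)
        push_cast at e1 e2 e3 e4
        linarith
    have hd0 : ∀ k, 2 * G (k + 1) - 3 * G k = 0 → 2 * G (k + 1 + 1) - 3 * G (k + 1) = 1 := by
      intro k hk
      rcases hdr (k + 1) with h | h
      · exfalso
        have e1 := hd k
        have e2 := hd (k + 1)
        rw [hk] at e1
        rw [h] at e2
        have e3 := h1' k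
        have e4 := h2' (k + 1 + 1)
        push_cast at e1 e2 e3 e4
        linarith
      · exact h
    obtain ⟨K, hK⟩ : ∃ K, 2 * G (K + 1) - 3 * G K = 0 := by
      rcases hdr 0 with h | h
      · exact ⟨0, h⟩
      · exact ⟨0 + 1, hd1 0 h⟩
    have hper : ∀ m, 2 * G (K + 2 * m + 1) - 3 * G (K + 2 * m) = 0 := by
      intro m
      induction m with
      | zero => exact hK
      | succ m ih => exact hd1 _ (hd0 _ ih)
    have hu : ∀ m, 4 * (5 * y (K + 2 * (m + 1)) - 2) = 9 * (5 * y (K + 2 * m) - 2) := by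
      intro m
      have e1 := hd (K + 2 * m)
      have e2 := hd (K + 2 * m + 1)
      rw [hper m] at e1
      rw [hd0 _ (hper m)] at e2
      rw [show K + 2 * (m + 1) = K + 2 * m + 1 + 1 by ring]
      push_cast at e1 e2
      linarith
    have hu0 : ∀ s, 5 * y (K + 2 * s) - 2 = 0 := by
      intro s
      have := growth (a := 9) (b := 4) (C := 3) (v := fun m => 5 * y (K + 2 * (s + m)) - 2)
        (by norm_num) (by norm_num) (fun m => hu (s + m)) (fun m => by
          have e1 := hy0 (K + 2 * (s + m))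
          have e2 := hy1 (K + 2 * (s + m))
          rw [abs_le]
          constructor <;> linarith)
      simpa using this
    have hW : ∀ m, 4 * (5 * G (K + 2 * (m + 1)) + 2) = 9 * (5 * G (K + 2 * m) + 2) := by
      intro m
      have e1 := hz (K + 2 * m)
      have e2 := hz (K + 2 * m + 1)
      have e3 := hzG (K + 2 * m)
      have e4 := hzG (K + 2 * m + 1 + 1)
      have e5 := hu0 m
      have e6 := hu0 (m + 1)
      rw [show K + 2 * (m + 1) = K + 2 * m + 1 + 1 by ring] at e6 ⊢
      have : (4 * (5 * (G (K + 2 * m + 1 + 1) : ℝ) + 2)) = 9 * (5 * (G (K + 2 * m) : ℝ) + 2) := by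
        linarith
      exact_mod_cast this
    have h4 : 5 * G (K + 2 * 0) + 2 = 0 :=
      int_zero (a := 9) (b := 4) (Z := fun m => 5 * G (K + 2 * m) + 2) (by norm_num)
        (by norm_num) hW
    omega
  · -- last third
    exfalso
    have h3 : ∀ k, 2 * G (k + 1) - 3 * G k = 1 := by
      intro k
      have e1 := hd k
      have e2 := hy1 k
      have e3 := hy1 (k + 1)
      have e4 := h1' k
      have e5 := h1' (k + 1)
      push_cast at e4 e5
      have e6 : ((2 * G (k + 1) - 3 * G k : ℤ) : ℝ) < 2 := by rw [e1]; linarith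
      have e7 : (0 : ℝ) < ((2 * G (k + 1) - 3 * G k : ℤ) : ℝ) := by rw [e1]; linarith
      have e6' : 2 * G (k + 1) - 3 * G k < 2 := by exact_mod_cast e6
      have e7' : 0 < 2 * G (k + 1) - 3 * G k := by exact_mod_cast e7
      omega
    have h5 := growth (a := 3) (b := 2) (C := 1) (v := fun k => 1 - y k) (by norm_num) (by norm_num)
      (fun m => by
        have e1 := hd m
        rw [h3 m] at e1
        push_cast at e1
        linarith) (fun m => by
          have e1 := hy0 m
          have e2 := hy1 m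
          rw [abs_le]
          constructor <;> linarith)
    have := hy1 0
    linarith

/-- the letters of an orbit of multiplication by `3 / 2` are not eventually constant -/
theorem not_const {n : ℕ} {x : ℕ → ℝ} (hx : ∀ k, (2 : ℕ) * x (k + 1) = (3 : ℕ) * x k)
    (h0 : ∀ k, x k ≠ 0) (K : ℕ) : ∃ i, K ≤ i ∧ seq 3 2 n x i ≠ seq 3 2 n x K := by
  by_contra hcon
  push Not at hcon
  have hlt : seq 3 2 n x K < 3 := seq_lt (by norm_num) x K
  have key : ∀ k, (seq 3 2 n x K : ℤ) = ⌊3 * Int.fract ((2 : ℝ) ^ (n - 1) * x (K + k))⌋ := by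
    intro k
    have e1 := hcon (K + k) (by omega)
    have e2 : ((seq 3 2 n x (K + k) : ℕ) : ℤ) =
        ⌊((3 : ℕ) : ℝ) * ((2 : ℕ) : ℝ) ^ (n - 1) * x (K + k)⌋ % ((3 : ℕ) : ℤ) := by
      unfold seq
      rw [Int.toNat_of_nonneg (Int.emod_nonneg _ (by norm_num))]
    rw [← e1, e2]
    obtain ⟨t, ht⟩ : ∃ t : ℝ, t = (2 : ℝ) ^ (n - 1) * x (K + k) := ⟨_, rfl⟩
    have e3 : ((3 : ℕ) : ℝ) * ((2 : ℕ) : ℝ) ^ (n - 1) * x (K + k) =
        3 * Int.fract t + ((3 * ⌊t⌋ : ℤ) : ℝ) := by
      push_cast
      rw [mul_assoc, ← ht, Int.fract]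
      ring
    rw [e3, ← ht, Int.floor_add_intCast]
    have e4 : 0 ≤ ⌊3 * Int.fract t⌋ := Int.floor_nonneg.2 (by positivity [Int.fract_nonneg t])
    have e5 : ⌊3 * Int.fract t⌋ < 3 := by
      rw [Int.floor_lt]
      push_cast
      linarith [Int.fract_lt_one t]
    omega
  have h1 := trap (z := fun k => (2 : ℝ) ^ (n - 1) * x (K + k)) (c := seq 3 2 n x K) (fun k => by
      have := hx (K + k)
      push_cast at this
      rw [show K + (k + 1) = K + k + 1 by ring]
      linear_combination (2 : ℝ) ^ (n - 1) * this) hlt (fun k => by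
        have e1 := key k
        have e2 := Int.floor_le (3 * Int.fract ((2 : ℝ) ^ (n - 1) * x (K + k)))
        rw [← e1] at e2
        exact_mod_cast e2) (fun k => by
        have e1 := key k
        have e2 := Int.lt_floor_add_one (3 * Int.fract ((2 : ℝ) ^ (n - 1) * x (K + k)))
        rw [← e1] at e2
        exact_mod_cast e2)
  exact (mul_ne_zero (by positivity) (h0 _)) h1

/-- **the visits of the orbits of multiplication by `3 / 2`** -/
theorem visits {n : ℕ} (hn : n.Prime) (h3 : 3 ≤ n) {ξ : ℝ} (hξ : ξ ≠ 0) :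
    {k : ℕ | code 3 2 n (ξ * (3 / 2) ^ k) ∈ EE 3 2 n (by norm_num)}.Infinite := by
  have hx : ∀ k, ((2 : ℕ) : ℝ) * (ξ * (3 / 2) ^ (k + 1)) = ((3 : ℕ) : ℝ) * (ξ * (3 / 2) ^ k) := by
    intro k
    rw [pow_succ]
    push_cast
    ring
  exact infinite_codes (x := fun k => ξ * (3 / 2) ^ k) (by norm_num) (by norm_num) hn h3 hx
    (not_const hx fun k => mul_ne_zero hξ (by positivity))

end Pool.Agent.Helper17.ZTH
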