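import Pool.Agent.Helper17.ZTH.Periodic
import Pool.Agent.Helper17.ZTH.Coarse

/-!
# Sets met by all configurations
-/

set_option autoImplicit false

open Finset

namespace Pool.Agent.Helper17.ZTH

/-- every finite configuration other than zero meets `W` within a bounded time at every position -/
def Met {n : ℕ} (W : Finset (Fin n → Fin 6)) : Prop :=
  ∃ T : ℕ, ∀ x : Conf, IsFin x → x ≠ 0 → ∀ j : ℤ,
    ∃ t ≤ T, (fun i : Fin n => F^[t] x (j + (i : ℕ))) ∈ W

/-- every configuration meets `W` at every position -/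
def MetAll {n : ℕ} (W : Finset (Fin n → Fin 6)) : Prop :=
  ∀ x : Conf, ∀ j : ℤ, ∃ t : ℕ, (fun i : Fin n => F^[t] x (j + (i : ℕ))) ∈ W

theorem F_apply (x : Conf) (i : ℤ) : F x i = f (f (x (i - 1)) (x i)) (f (x i) (x (i + 1))) := by
  unfold F F3
  simp only
  rw [add_sub_cancel_right, add_sub_cancel_right]

theorem F_local {x y : Conf} {a b : ℤ} (h : ∀ i, a - 1 ≤ i → i ≤ b + 1 → x i = y i) :
    ∀ i, a ≤ i → i ≤ b → F x i = F y i := by
  intro i h1 h2
  rw [F_apply, F_apply, h (i - 1) (by omega) (by omega), h i (by omega) (by omega),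
    h (i + 1) (by omega) (by omega)]

theorem iter_local (t : ℕ) : ∀ {x y : Conf} {a b : ℤ},
    (∀ i, a - t ≤ i → i ≤ b + t → x i = y i) → ∀ i, a ≤ i → i ≤ b → F^[t] x i = F^[t] y i := by
  induction t with
  | zero =>
    intro x y a b h i h1 h2
    exact h i (by push_cast; omega) (by push_cast; omega)
  | succ t ih =>
    intro x y a b h i h1 h2
    rw [Function.iterate_succ_apply, Function.iterate_succ_apply]
    refine ih ?_ i h1 h2
    refine F_local fun i h3 h4 => h i ?_ ?_
    · push_cast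
      omega
    · push_cast
      omega

theorem F_shift (x : Conf) (j : ℤ) : F (fun i => x (i + j)) = fun i => F x (i + j) := by
  funext i
  rw [F_apply, F_apply, show i - 1 + j = i + j - 1 by ring, show i + 1 + j = i + j + 1 by ring]

theorem iter_shift (x : Conf) (j : ℤ) (t : ℕ) :
    F^[t] (fun i => x (i + j)) = fun i => F^[t] x (i + j) := by
  induction t with
  | zero => rfl
  | succ t ih =>
    rw [Function.iterate_succ_apply', ih, F_shift, Function.iterate_succ_apply']

theorem continuous_F3 : Continuous F3 := by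
  refine continuous_pi fun i => ?_
  have h1 : Continuous fun p : Fin 6 × Fin 6 => f p.1 p.2 := continuous_of_discreteTopology
  have h2 : Continuous fun x : Conf => (x i, x (i + 1)) :=
    (continuous_apply i).prodMk (continuous_apply (i + 1))
  exact h1.comp h2

theorem continuous_F : Continuous F := by
  have h : Continuous fun x : Conf => (fun i : ℤ => x (i - 1) : Conf) :=
    continuous_pi fun i => continuous_apply (i - 1)
  exact continuous_F3.comp (continuous_F3.comp h)

theorem met_of_all {n : ℕ} {W : Finset (Fin n → Fin 6)} (h : MetAll W) : Met W := by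
  set U : ℕ → Set Conf := fun t => {x | (fun i : Fin n => F^[t] x (0 + (i : ℕ))) ∈ W} with hU
  have hopen : ∀ t, IsOpen (U t) := by
    intro t
    have h1 : Continuous fun x : Conf => (fun i : Fin n => F^[t] x (0 + (i : ℕ))) :=
      continuous_pi fun i => (continuous_apply _).comp (continuous_F.iterate t)
    have h2 : IsOpen ((W : Set (Fin n → Fin 6))) := isOpen_discrete _
    exact h2.preimage h1
  obtain ⟨s, hs⟩ := isCompact_univ.elim_finite_subcover U hopen (by
    intro x _
    obtain ⟨t, ht⟩ := h x 0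
    exact Set.mem_iUnion.2 ⟨t, ht⟩)
  refine ⟨s.sup id, fun x _ _ j => ?_⟩
  obtain ⟨t, ht⟩ := Set.mem_iUnion.1 (hs (Set.mem_univ (fun i => x (i + j) : Conf)))
  obtain ⟨hts, ht⟩ := Set.mem_iUnion.1 ht
  refine ⟨t, Finset.le_sup (f := id) hts, ?_⟩
  have h3 : (fun i : Fin n => F^[t] (fun i => x (i + j)) (0 + ((i : ℕ) : ℤ))) ∈ W := ht
  rw [iter_shift] at h3
  simp only [zero_add] at h3
  have h4 : (fun i : Fin n => F^[t] x (j + ((i : ℕ) : ℤ))) =
      fun i : Fin n => F^[t] x (((i : ℕ) : ℤ) + j) := by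
    funext i
    rw [add_comm]
  rw [h4]
  exact h3

theorem all_of_met {n : ℕ} {W : Finset (Fin n → Fin 6)} (h : Met W) : MetAll W := by
  obtain ⟨T, hT⟩ := h
  intro x j
  set y : Conf := fun i => if j - T ≤ i ∧ i ≤ j + n + T then x i
    else if i = j + n + T + 1 then 1 else 0 with hy
  have hfin : IsFin y := by
    refine (Set.finite_Icc (j - T) (j + n + T + 1)).subset fun i hi => ?_
    by_contra hcon
    apply hi
    rw [Set.mem_Icc, not_and_or] at hcon
    rw [hy]
    dsimp only
    rw [if_neg (by omega), if_neg (by omega)]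
  have hne : y ≠ 0 := by
    intro h0
    have h1 := congrFun h0 (j + n + T + 1)
    rw [hy] at h1
    dsimp only at h1
    rw [if_neg (by omega), if_pos rfl] at h1
    have h2 : (1 : Fin 6) = 0 := h1
    exact absurd h2 (by decide)
  obtain ⟨t, ht, htW⟩ := hT y hfin hne j
  refine ⟨t, ?_⟩
  have h2 : (fun i : Fin n => F^[t] x (j + ((i : ℕ) : ℤ))) =
      fun i : Fin n => F^[t] y (j + ((i : ℕ) : ℤ)) := by
    funext i
    refine iter_local t (a := j) (b := j + n) ?_ _ (by omega) (by omega)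
    intro i' h3 h4
    rw [hy]
    dsimp only
    rw [if_pos (by omega)]
  rw [h2]
  exact htW

/-- **the compactness principle** -/
theorem met_iff {n : ℕ} (W : Finset (Fin n → Fin 6)) : Met W ↔ MetAll W :=
  ⟨all_of_met, met_of_all⟩

/-- the least cardinality -/
noncomputable def u (n : ℕ) : ℕ := sInf {c : ℕ | ∃ W : Finset (Fin n → Fin 6), Met W ∧ W.card = c}

theorem met_univ (n : ℕ) : Met (univ : Finset (Fin n → Fin 6)) :=
  ⟨0, fun _ _ _ _ => ⟨0, Nat.le_refl 0, Finset.mem_univ _⟩⟩

theorem exists_u (n : ℕ) : ∃ W : Finset (Fin n → Fin 6), Met W ∧ W.card = u n :=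
  Nat.sInf_mem (s := {c : ℕ | ∃ W : Finset (Fin n → Fin 6), Met W ∧ W.card = c})
    ⟨_, univ, met_univ n, rfl⟩

theorem u_le {n : ℕ} {W : Finset (Fin n → Fin 6)} (h : Met W) : u n ≤ W.card :=
  Nat.sInf_le ⟨W, h, rfl⟩

/-- **the upper bound** -/
theorem u_upper {n N : ℕ} (h3 : 3 ≤ N) (hnN : n ≤ N) :
    (u n : ℝ) ≤ 6 ^ n / N + 6 ^ n / 3 ^ N.totient + 3 ^ (N + 1) := by
  obtain ⟨E, h1, h2, h4⟩ := coarse h3 hnN
  refine le_trans ?_ h2
  have hmet : Met (WW n E) := by
    refine ⟨3 ^ N, fun x hx _ j => ?_⟩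
    obtain ⟨t, _, ht, htE⟩ := h4 (fun k => (6 : ℝ) ^ (j - 1) * alpha x * (3 / 2) ^ k) (fun k => by
      rw [pow_succ]
      ring) 0
    refine ⟨t, by omega, Finset.mem_filter.2 ⟨Finset.mem_univ _, ?_⟩⟩
    obtain ⟨e1, e2⟩ := iter_F hx t
    have e3 := code_alpha e1 j n
    rw [e2, ← mul_assoc] at e3
    have e4 : enc (fun i : Fin n => F^[t] x (j + (i : ℕ))) =
        ∑ i ∈ range n, (F^[t] x (j + i) : ℕ) * 6 ^ (n - 1 - i) := by
      rw [enc, Finset.sum_range]
    rw [e4, ← e3]
    exact htE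
  exact_mod_cast (u_le hmet).trans (card_WW n E)

/-- **the lower bound** -/
theorem u_lower (n : ℕ) {N : ℕ} (hN : 0 < N) :
    3 ^ N - 2 ^ N ≤ N * (u n * ((3 ^ N - 2 ^ N) / 6 ^ n + 1)) := by
  obtain ⟨W, h1, h2⟩ := exists_u n
  rw [← h2]
  exact lower (fun x => all_of_met h1 x 1) hN

end Pool.Agent.Helper17.ZTH
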