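import Pool.Agent.Helper17.ZTH.Auto

/-!
# Words and their codes
-/

set_option autoImplicit false

open Finset

namespace Pool.Agent.Helper17.ZTH

/-- the number with the base-`6` digits `w` -/
def enc {n : ℕ} (w : Fin n → Fin 6) : ℕ := ∑ i : Fin n, (w i : ℕ) * 6 ^ (n - 1 - (i : ℕ))

theorem enc_eq {n : ℕ} (w : Fin n → Fin 6) :
    enc w = (finFunctionFinEquiv (fun i : Fin n => w i.rev) : Fin (6 ^ n)).1 := by
  rw [finFunctionFinEquiv_apply, enc]
  refine Fintype.sum_equiv Fin.revPerm _ _ fun i => ?_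
  simp only [Fin.revPerm_apply, Fin.rev_rev, Fin.val_rev]
  congr 2
  omega

theorem enc_inj {n : ℕ} : Function.Injective (enc (n := n)) := by
  intro v w h
  rw [enc_eq, enc_eq] at h
  have h1 := finFunctionFinEquiv.injective (Fin.ext h)
  funext i
  have := congrFun h1 i.rev
  simpa using this

theorem enc_lt {n : ℕ} (w : Fin n → Fin 6) : enc w < 6 ^ n := by
  rw [enc_eq]
  exact (finFunctionFinEquiv (fun i : Fin n => w i.rev) : Fin (6 ^ n)).2

theorem enc_surj {n e : ℕ} (he : e < 6 ^ n) : ∃ w : Fin n → Fin 6, enc w = e := by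
  refine ⟨fun i => (finFunctionFinEquiv.symm (⟨e, he⟩ : Fin (6 ^ n))) i.rev, ?_⟩
  rw [enc_eq]
  simp only [Fin.rev_rev]
  have : (fun i : Fin n => (finFunctionFinEquiv.symm (⟨e, he⟩ : Fin (6 ^ n))) i) =
      finFunctionFinEquiv.symm (⟨e, he⟩ : Fin (6 ^ n)) := rfl
  rw [this, Equiv.apply_symm_apply]

/-- the words whose codes lie in a set -/
def WW (n : ℕ) (E : Finset ℕ) : Finset (Fin n → Fin 6) := univ.filter fun w => enc w ∈ E

theorem card_WW (n : ℕ) (E : Finset ℕ) : (WW n E).card ≤ E.card := by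
  refine Finset.card_le_card_of_injOn enc (fun w hw => ?_) (enc_inj.injOn)
  exact (Finset.mem_filter.1 hw).2

/-- The cylinders of a code. -/
theorem code_iff {n : ℕ} {y : ℝ} {e : ℕ} : code 3 2 n y = e ↔
    Int.fract y ∈ Set.Ico ((e : ℝ) / 6 ^ n) (((e : ℝ) + 1) / 6 ^ n) := by
  unfold code
  have h6 : (0 : ℝ) < 6 ^ n := by positivity
  rw [show (((3 * 2 : ℕ)) : ℝ) = 6 by norm_num,
    Nat.floor_eq_iff (mul_nonneg h6.le (Int.fract_nonneg y)), Set.mem_Ico,
    div_le_iff₀ h6, lt_div_iff₀ h6, mul_comm (Int.fract y)]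

/-- the codes of length `n` which extend codes of length `m` -/
def up (n m : ℕ) (E : Finset ℕ) : Finset ℕ := (range (6 ^ n)).filter fun e => e / 6 ^ (n - m) ∈ E

theorem card_up (n m : ℕ) (E : Finset ℕ) : (up n m E).card ≤ E.card * 6 ^ (n - m) := by
  have h : (up n m E).card ≤ (E ×ˢ range (6 ^ (n - m))).card := by
    refine Finset.card_le_card_of_injOn (fun e => (e / 6 ^ (n - m), e % 6 ^ (n - m))) ?_ ?_
    · intro e he
      have := (Finset.mem_filter.1 he).2
      simp only [Finset.coe_product, Set.mem_prod, Finset.mem_coe, Finset.mem_range]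
      exact ⟨this, Nat.mod_lt _ (by positivity)⟩
    · intro e _ e' _ h
      simp only [Prod.mk.injEq] at h
      rw [← Nat.div_add_mod e (6 ^ (n - m)), h.1, h.2, Nat.div_add_mod]
  rwa [Finset.card_product, Finset.card_range] at h

theorem code_div {n m : ℕ} (hm : m ≤ n) (y : ℝ) : code 3 2 n y / 6 ^ (n - m) = code 3 2 m y := by
  unfold code
  have h0 : (((3 * 2 : ℕ) : ℝ) ^ n * Int.fract y) / ((6 ^ (n - m) : ℕ) : ℝ) =
      ((3 * 2 : ℕ) : ℝ) ^ m * Int.fract y := by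
    rw [show (((3 * 2 : ℕ)) : ℝ) = 6 by norm_num]
    have h1 : (6 : ℝ) ^ n = 6 ^ m * 6 ^ (n - m) := by rw [← pow_add]; congr 1; omega
    rw [h1]
    push_cast
    field_simp
  rw [← h0, Nat.floor_div_natCast]

theorem mem_up {n m : ℕ} (hm : m ≤ n) (E : Finset ℕ) (y : ℝ) :
    code 3 2 n y ∈ up n m E ↔ code 3 2 m y ∈ E := by
  rw [up, Finset.mem_filter, code_div hm, Finset.mem_range]
  have := code_lt (p := 3) (q := 2) (by norm_num) (by norm_num) n y
  norm_num at this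
  exact ⟨fun h => h.2, fun h => ⟨this, h⟩⟩

/-- primes for lengths -/
theorem prime_le {n : ℕ} (hn : 3 ≤ n) : ∃ m : ℕ, m.Prime ∧ 3 ≤ m ∧ m ≤ n ∧ n < 2 * m ∧
    (n.Prime → m = n) := by
  by_cases hp : n.Prime
  · exact ⟨n, hp, hn, le_rfl, by omega, fun _ => rfl⟩
  · have h4 : 4 ≤ n := by
      rcases Nat.lt_or_ge n 4 with h | h
      · exfalso
        apply hp
        rw [show n = 3 by omega]
        norm_num
      · exact h
    obtain ⟨m, h1, h2, h3⟩ := Nat.exists_prime_lt_and_le_two_mul (n / 2) (by omega)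
    exact ⟨m, h1, by omega, by omega, by omega, fun h => absurd h hp⟩

/-- the codes for every length -/
theorem codes {n : ℕ} (hn : 3 ≤ n) : ∃ E : Finset ℕ, n * E.card < 2 * 6 ^ n ∧
    (n.Prime → n * E.card < 6 ^ n) ∧
    ∀ ξ : ℝ, ξ ≠ 0 → {k : ℕ | code 3 2 n (ξ * (3 / 2) ^ k) ∈ E}.Infinite := by
  obtain ⟨m, hm, h3, hmn, h2, hp⟩ := prime_le hn
  have hc : m * (EE 3 2 m (by norm_num)).card < 6 ^ m := by
    have := card_EE (p := 3) (q := 2) (by norm_num) (by norm_num) (by norm_num) h3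
    have h4 : 0 < 3 * 2 ^ m := by positivity
    norm_num at this
    omega
  have hpow : 6 ^ n = 6 ^ m * 6 ^ (n - m) := by rw [← pow_add]; congr 1; omega
  have hcu := card_up n m (EE 3 2 m (by norm_num))
  refine ⟨up n m (EE 3 2 m (by norm_num)), ?_, ?_, ?_⟩
  · calc n * (up n m (EE 3 2 m (by norm_num))).card
        ≤ (2 * m) * ((EE 3 2 m (by norm_num)).card * 6 ^ (n - m)) :=
          Nat.mul_le_mul h2.le hcu
      _ = 2 * (m * (EE 3 2 m (by norm_num)).card) * 6 ^ (n - m) := by ring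
      _ < 2 * 6 ^ m * 6 ^ (n - m) := by gcongr
      _ = 2 * 6 ^ n := by rw [hpow]; ring
  · intro h
    have e := hp h
    subst e
    rw [Nat.sub_self, pow_zero, mul_one] at hcu
    exact (Nat.mul_le_mul_left m hcu).trans_lt hc
  · intro ξ hξ
    have := visits hm h3 hξ
    simpa only [mem_up hmn] using this

/-- **the theorem for words** -/
theorem words {n : ℕ} (hn : 3 ≤ n) : ∃ W : Finset (Fin n → Fin 6), n * W.card < 2 * 6 ^ n ∧
    (n.Prime → n * W.card < 6 ^ n) ∧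
    (∀ ξ : ℝ, ξ ≠ 0 → {k : ℕ | ∃ w ∈ W, Int.fract (ξ * (3 / 2) ^ k) ∈
      Set.Ico ((enc w : ℝ) / 6 ^ n) (((enc w : ℝ) + 1) / 6 ^ n)}.Infinite) ∧
    ∀ x : Conf, IsFin x → x ≠ 0 → ∀ j : ℤ,
      {t : ℕ | (fun i : Fin n => F^[t] x (j + (i : ℕ))) ∈ W}.Infinite := by
  obtain ⟨E, h1, h2, h3⟩ := codes hn
  refine ⟨WW n E, (Nat.mul_le_mul_left n (card_WW n E)).trans_lt h1,
    fun hp => (Nat.mul_le_mul_left n (card_WW n E)).trans_lt (h2 hp), ?_, ?_⟩
  · intro ξ hξ
    refine (h3 ξ hξ).mono fun k hk => ?_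
    have hlt := code_lt (p := 3) (q := 2) (by norm_num) (by norm_num) n (ξ * (3 / 2) ^ k)
    norm_num at hlt
    obtain ⟨w, hw⟩ := enc_surj hlt
    refine ⟨w, Finset.mem_filter.2 ⟨Finset.mem_univ _, ?_⟩, ?_⟩
    · rw [hw]
      exact hk
    · exact code_iff.1 hw.symm
  · intro x hx h0 j
    refine (h3 ((6 : ℝ) ^ (j - 1) * alpha x) (mul_ne_zero (by positivity) (alpha_ne hx h0))).mono
      fun t ht => ?_
    obtain ⟨e1, e2⟩ := iter_F hx t
    have e3 := code_alpha e1 j n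
    rw [e2, ← mul_assoc] at e3
    refine Finset.mem_filter.2 ⟨Finset.mem_univ _, ?_⟩
    have e4 : enc (fun i : Fin n => F^[t] x (j + (i : ℕ))) =
        ∑ i ∈ range n, (F^[t] x (j + i) : ℕ) * 6 ^ (n - 1 - i) := by
      rw [enc, Finset.sum_range]
    rw [e4, ← e3]
    exact ht

end Pool.Agent.Helper17.ZTH
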